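import Mathlib

set_option autoImplicit false

/-!
Characteristic 2.  `K = k[x,y]`, `D` the derivation with `D x = y^8 + y^4`, `D y = x^2 + y^2`,
`g = y^10 + y^6`.  `H` is the algebra `K ⊕ z K` with `a z = z a + D a` for `a` in `K` and
`z^2 = g`, realised inside the 2 x 2 matrices over `K`
(`a + z b` is the matrix `[[a, D a + g b], [b, a + D b]]`).
-/

namespace Pool.Agent.Helper815.GK2

open MvPolynomial TensorProduct

/-- the commutative polynomial ring in two variables -/
abbrev K (k : Type) [Field k] : Type := MvPolynomial (Fin 2) k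

/-- the derivation with `D x = y^8 + y^4` and `D y = x^2 + y^2` -/
noncomputable def D (k : Type) [Field k] : Derivation k (K k) (K k) :=
  MvPolynomial.mkDerivation k ![X 1 ^ 8 + X 1 ^ 4, X 0 ^ 2 + X 1 ^ 2]

/-- the polynomial `y^10 + y^6` -/
noncomputable def g (k : Type) [Field k] : K k := X 1 ^ 10 + X 1 ^ 6

section
variable {k : Type} [Field k]

lemma D_x : D k (X 0) = X 1 ^ 8 + X 1 ^ 4 := by
  simp [D, MvPolynomial.mkDerivation_X]

lemma D_y : D k (X 1) = X 0 ^ 2 + X 1 ^ 2 := by
  simp [D, MvPolynomial.mkDerivation_X]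

variable [CharP k 2]

lemma two_eq_zero : (2 : k) = 0 := by
  have := CharP.cast_eq_zero k 2
  simpa using this

lemma two_alg {B : Type*} [Ring B] [Algebra k B] : (2 : B) = 0 := by
  have h : algebraMap k B 2 = algebraMap k B 0 := by rw [two_eq_zero]
  rwa [map_zero, map_ofNat] at h

lemma add_self_alg {B : Type*} [Ring B] [Algebra k B] (b : B) : b + b = 0 := by
  rw [← two_mul, two_alg (k := k), zero_mul]

lemma neg_alg {B : Type*} [Ring B] [Algebra k B] (b : B) : -b = b :=
  neg_eq_of_add_eq_zero_left (add_self_alg (k := k) b)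

lemma two_K : (2 : K k) = 0 := two_alg (k := k)

lemma D_sq (a : K k) : D k (a ^ 2) = 0 := by
  rw [Derivation.leibniz_pow]
  rw [show (2 : ℕ) • (a ^ (2 - 1) • D k a) = (2 : K k) * (a * D k a) by
    simp [two_mul]]
  rw [two_K, zero_mul]

lemma D_D_x : D k (D k (X 0)) = 0 := by
  rw [D_x, map_add, show (X 1 : K k) ^ 8 = (X 1 ^ 4) ^ 2 by ring,
    show (X 1 : K k) ^ 4 = (X 1 ^ 2) ^ 2 by ring, D_sq, D_sq, add_zero]

lemma D_D_y : D k (D k (X 1)) = 0 := by
  rw [D_y, map_add, D_sq, D_sq, add_zero]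

lemma D_D (a : K k) : D k (D k a) = 0 := by
  induction a using MvPolynomial.induction_on with
  | C r => simp
  | add p q hp hq => rw [map_add, map_add, hp, hq, add_zero]
  | mul_X p i hp =>
    have hX : D k (D k (X i)) = 0 := by
      fin_cases i
      · exact D_D_x
      · exact D_D_y
    rw [Derivation.leibniz, map_add, smul_eq_mul, smul_eq_mul, Derivation.leibniz,
      Derivation.leibniz, hX, hp]
    simp only [smul_eq_mul, mul_zero, zero_add]
    rw [mul_comm, ← two_mul, two_K, zero_mul]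

lemma D_g : D k (g k) = 0 := by
  rw [g, map_add, show (X 1 : K k) ^ 10 = (X 1 ^ 5) ^ 2 by ring,
    show (X 1 : K k) ^ 6 = (X 1 ^ 3) ^ 2 by ring, D_sq, D_sq, add_zero]

end

/-- the algebra `H = K ⊕ z K`, as a subalgebra of the 2 x 2 matrices over `K` -/
noncomputable def Halg (k : Type) [Field k] [CharP k 2] :
    Subalgebra k (Matrix (Fin 2) (Fin 2) (K k)) where
  carrier := {M | M 0 1 = D k (M 0 0) + g k * M 1 0 ∧ M 1 1 = M 0 0 + D k (M 1 0)}
  mul_mem' := by
    rintro M N ⟨hM1, hM2⟩ ⟨hN1, hN2⟩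
    simp only [Set.mem_setOf_eq, Matrix.mul_apply, Fin.sum_univ_two, map_add,
      Derivation.leibniz, smul_eq_mul, hM1, hM2, hN1, hN2, D_D, D_g, mul_zero, add_zero]
    constructor
    · linear_combination (-(M 0 0 * 0) - g k * N 1 0 * D k (M 1 0)) * two_K (k := k)
    · linear_combination (-(N 1 0 * D k (M 0 0))) * two_K (k := k)
  add_mem' := by
    rintro M N ⟨hM1, hM2⟩ ⟨hN1, hN2⟩
    simp only [Set.mem_setOf_eq, Matrix.add_apply, map_add, hM1, hM2, hN1, hN2]
    constructor <;> ring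
  algebraMap_mem' := by
    intro r
    simp [Matrix.algebraMap_eq_diagonal]

/-- the algebra `H` -/
abbrev H (k : Type) [Field k] [CharP k 2] : Type := ↥(Halg k)

section
variable {k : Type} [Field k] [CharP k 2]

lemma mem_Halg {M : Matrix (Fin 2) (Fin 2) (K k)} : M ∈ Halg k ↔
    M 0 1 = D k (M 0 0) + g k * M 1 0 ∧ M 1 1 = M 0 0 + D k (M 1 0) := Iff.rfl

/-- first coordinate of `a + z b` -/
def fa (M : H k) : K k := (M : Matrix (Fin 2) (Fin 2) (K k)) 0 0

/-- second coordinate of `a + z b` -/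
def fb (M : H k) : K k := (M : Matrix (Fin 2) (Fin 2) (K k)) 1 0

lemma ext_ab {M N : H k} (h1 : fa M = fa N) (h2 : fb M = fb N) : M = N := by
  apply Subtype.ext
  obtain ⟨hM1, hM2⟩ := mem_Halg.mp M.2
  obtain ⟨hN1, hN2⟩ := mem_Halg.mp N.2
  simp only [fa, fb] at h1 h2
  ext i j : 1
  fin_cases i <;> fin_cases j
  · exact h1
  · simp only [Fin.zero_eta, Fin.mk_one]
    rw [hM1, hN1, h1, h2]
  · exact h2
  · simp only [Fin.mk_one]
    rw [hM2, hN2, h1, h2]

lemma fa_mul (M N : H k) : fa (M * N) = fa M * fa N + (D k (fa M) + g k * fb M) * fb N := by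
  obtain ⟨hM1, hM2⟩ := mem_Halg.mp M.2
  simp only [fa, fb, Subalgebra.coe_mul, Matrix.mul_apply, Fin.sum_univ_two, hM1]

lemma fb_mul (M N : H k) : fb (M * N) = fb M * fa N + (fa M + D k (fb M)) * fb N := by
  obtain ⟨hM1, hM2⟩ := mem_Halg.mp M.2
  simp only [fa, fb, Subalgebra.coe_mul, Matrix.mul_apply, Fin.sum_univ_two, hM2]

@[simp] lemma fa_add (M N : H k) : fa (M + N) = fa M + fa N := rfl
@[simp] lemma fb_add (M N : H k) : fb (M + N) = fb M + fb N := rfl
@[simp] lemma fa_smul (r : k) (M : H k) : fa (r • M) = r • fa M := rfl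
@[simp] lemma fb_smul (r : k) (M : H k) : fb (r • M) = r • fb M := rfl
@[simp] lemma fa_zero : fa (0 : H k) = 0 := rfl
@[simp] lemma fb_zero : fb (0 : H k) = 0 := rfl
@[simp] lemma fa_one : fa (1 : H k) = 1 := by simp [fa]
@[simp] lemma fb_one : fb (1 : H k) = 0 := by simp [fb]

/-- the element `a + z b` -/
noncomputable def mk (a b : K k) : H k :=
  ⟨!![a, D k a + g k * b; b, a + D k b], by simp [mem_Halg]⟩

@[simp] lemma fa_mk (a b : K k) : fa (mk a b) = a := by simp [fa, mk]
@[simp] lemma fb_mk (a b : K k) : fb (mk a b) = b := by simp [fb, mk]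

/-- the inclusion of `K` into `H` -/
noncomputable def io : K k →ₐ[k] H k where
  toFun a := mk a 0
  map_one' := ext_ab (by simp) (by simp)
  map_mul' a b := ext_ab (by rw [fa_mul]; simp) (by rw [fb_mul]; simp)
  map_zero' := ext_ab (by simp) (by simp)
  map_add' a b := ext_ab (by simp) (by simp)
  commutes' r := by
    apply ext_ab
    · rw [fa_mk]; simp [fa, Matrix.algebraMap_eq_diagonal]
    · rw [fb_mk]; simp [fb, Matrix.algebraMap_eq_diagonal]

@[simp] lemma fa_io (a : K k) : fa (io a) = a := fa_mk a 0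
@[simp] lemma fb_io (a : K k) : fb (io a) = 0 := fb_mk a 0

variable (k) in
/-- the generator `z` -/
noncomputable def z : H k := mk 0 1

@[simp] lemma fa_z : fa (z k) = 0 := fa_mk 0 1
@[simp] lemma fb_z : fb (z k) = 1 := fb_mk 0 1

variable (k) in
/-- the generator `x` -/
noncomputable def x : H k := io (X 0)

variable (k) in
/-- the generator `y` -/
noncomputable def y : H k := io (X 1)

lemma decomp (M : H k) : M = io (fa M) + z k * io (fb M) := by
  apply ext_ab
  · rw [fa_add, fa_mul]; simp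
  · rw [fb_add, fb_mul]; simp

lemma io_z (a : K k) : io a * z k = z k * io a + io (D k a) := by
  apply ext_ab
  · rw [fa_add, fa_mul, fa_mul]; simp
  · rw [fb_add, fb_mul, fb_mul]; simp

lemma z_z : z k * z k = io (g k) := by
  apply ext_ab
  · rw [fa_mul]; simp
  · rw [fb_mul]; simp

end

end Pool.Agent.Helper815.GK2
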