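import Pool.Agent.Helper815.GK2.Defs

set_option autoImplicit false
set_option linter.unusedSectionVars false
set_option linter.unusedSimpArgs false

namespace Pool.Agent.Helper815.GK2

open MvPolynomial TensorProduct

section lift
variable {k : Type} [Field k] [CharP k 2] {B : Type*} [Ring B] [Algebra k B]

lemma comm_of_gen (f : K k →ₐ[k] B) (Z : B)
    (hx : f (X 0) * Z = Z * f (X 0) + f (D k (X 0)))
    (hy : f (X 1) * Z = Z * f (X 1) + f (D k (X 1))) (b : K k) :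
    f b * Z = Z * f b + f (D k b) := by
  induction b using MvPolynomial.induction_on with
  | C r =>
    rw [← MvPolynomial.algebraMap_eq, AlgHom.commutes, Derivation.map_algebraMap, map_zero,
      add_zero, Algebra.commutes]
  | add p q hp hq => simp only [map_add, add_mul, mul_add, hp, hq]; abel
  | mul_X p i hp =>
    have hX : f (X i) * Z = Z * f (X i) + f (D k (X i)) := by
      fin_cases i
      · exact hx
      · exact hy
    have hc : ∀ u v : K k, f u * f v = f v * f u := by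
      intro u v
      rw [← map_mul, ← map_mul, mul_comm]
    rw [Derivation.leibniz, smul_eq_mul, smul_eq_mul, map_add, map_mul, map_mul, map_mul,
      mul_assoc, hX, mul_add, ← mul_assoc, hp, add_mul, ← mul_assoc, hc (X i) (D k p)]
    rw [add_assoc, add_comm (f (D k p) * f (X i))]

/-- The universal property of `H`. -/
noncomputable def lift (f : K k →ₐ[k] B) (Z : B)
    (h1 : ∀ b, f b * Z = Z * f b + f (D k b)) (h2 : Z * Z = f (g k)) : H k →ₐ[k] B :=
  AlgHom.ofLinearMap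
    { toFun := fun M => f (fa M) + Z * f (fb M)
      map_add' := by
        intro M N
        simp only [fa_add, fb_add, map_add, mul_add]
        abel
      map_smul' := by
        intro r M
        simp only [fa_smul, fb_smul, map_smul, RingHom.id_apply, smul_add, mul_smul_comm] }
    (by simp)
    (by
      intro M N
      simp only [LinearMap.coe_mk, AddHom.coe_mk]
      rw [fa_mul, fb_mul]
      generalize fa M = a
      generalize fb M = b
      generalize fa N = c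
      generalize fb N = d
      have hc : ∀ u v : K k, f u * f v = f v * f u := by
        intro u v
        rw [← map_mul, ← map_mul, mul_comm]
      have e1 : (f a + Z * f b) * (f c + Z * f d) =
          f a * f c + (f a * Z) * f d + Z * (f b * f c) + Z * ((f b * Z) * f d) := by
        noncomm_ring
      rw [e1, h1 a, h1 b]
      have e2 : f (a * c + (D k a + g k * b) * d) + Z * f (b * c + (a + D k b) * d) =
          f a * f c + f (D k a) * f d + (Z * Z) * (f b * f d) + Z * (f b * f c) + Z * (f a * f d)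
            + Z * (f (D k b) * f d) := by
        rw [h2]
        simp only [map_add, map_mul]
        noncomm_ring
      rw [e2]
      noncomm_ring)

@[simp] lemma lift_apply (f : K k →ₐ[k] B) (Z : B)
    (h1 : ∀ b, f b * Z = Z * f b + f (D k b)) (h2 : Z * Z = f (g k)) (M : H k) :
    lift f Z h1 h2 M = f (fa M) + Z * f (fb M) := rfl

lemma hom_ext {φ ψ : H k →ₐ[k] B} (hx : φ (x k) = ψ (x k)) (hy : φ (y k) = ψ (y k))
    (hz : φ (z k) = ψ (z k)) : φ = ψ := by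
  have h : φ.comp io = ψ.comp io := by
    apply MvPolynomial.algHom_ext
    intro i
    fin_cases i
    · exact hx
    · exact hy
  ext M
  rw [decomp M, map_add, map_add, map_mul, map_mul, hz]
  have h1 := fun a => DFunLike.congr_fun h a
  simp only [AlgHom.comp_apply] at h1
  rw [h1, h1]

end lift

section hopf
variable (k : Type) [Field k] [CharP k 2]

/-- coproduct on `K` -/
noncomputable def dK : K k →ₐ[k] (K k ⊗[k] K k) :=
  MvPolynomial.aeval fun i => X i ⊗ₜ[k] (1 : K k) + (1 : K k) ⊗ₜ[k] X i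

lemma dK_X (i : Fin 2) : dK k (X i) = X i ⊗ₜ[k] (1 : K k) + (1 : K k) ⊗ₜ[k] X i := by
  simp [dK]

lemma sq_add_char2 {B : Type*} [CommRing B] [Algebra k B] (a b : B) :
    (a + b) ^ 2 = a ^ 2 + b ^ 2 := by
  linear_combination (a * b) * two_alg (k := k) (B := B)

lemma dK_X2 (i : Fin 2) : dK k (X i ^ 2) = (X i ^ 2) ⊗ₜ[k] (1 : K k) + (1 : K k) ⊗ₜ[k] (X i ^ 2) := by
  rw [map_pow, dK_X, sq_add_char2 k, Algebra.TensorProduct.tmul_pow,
    Algebra.TensorProduct.tmul_pow, one_pow]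

lemma dK_X4 (i : Fin 2) : dK k (X i ^ 4) = (X i ^ 4) ⊗ₜ[k] (1 : K k) + (1 : K k) ⊗ₜ[k] (X i ^ 4) := by
  rw [show (X i : K k) ^ 4 = (X i ^ 2) ^ 2 by ring, map_pow, dK_X2, sq_add_char2 k,
    Algebra.TensorProduct.tmul_pow, Algebra.TensorProduct.tmul_pow, one_pow]

lemma dK_X8 (i : Fin 2) : dK k (X i ^ 8) = (X i ^ 8) ⊗ₜ[k] (1 : K k) + (1 : K k) ⊗ₜ[k] (X i ^ 8) := by
  rw [show (X i : K k) ^ 8 = (X i ^ 4) ^ 2 by ring, map_pow, dK_X4, sq_add_char2 k,
    Algebra.TensorProduct.tmul_pow, Algebra.TensorProduct.tmul_pow, one_pow]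

/-- the map `K → H ⊗ H` -/
noncomputable def dH : K k →ₐ[k] (H k ⊗[k] H k) :=
  (Algebra.TensorProduct.map io io).comp (dK k)

/-- the image of `z` under the coproduct -/
noncomputable def Zc : H k ⊗[k] H k :=
  z k ⊗ₜ[k] (1 : H k) + (1 : H k) ⊗ₜ[k] z k + x k ⊗ₜ[k] (y k ^ 2) + y k ⊗ₜ[k] (y k ^ 4)

lemma dH_x : dH k (X 0) = x k ⊗ₜ[k] (1 : H k) + (1 : H k) ⊗ₜ[k] x k := by
  simp [dH, dK_X, x]

lemma dH_y : dH k (X 1) = y k ⊗ₜ[k] (1 : H k) + (1 : H k) ⊗ₜ[k] y k := by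
  simp [dH, dK_X, y]

lemma dH_y4 : dH k (X 1 ^ 4) = (y k ^ 4) ⊗ₜ[k] (1 : H k) + (1 : H k) ⊗ₜ[k] (y k ^ 4) := by
  rw [dH, AlgHom.comp_apply, dK_X4]
  simp only [map_add, Algebra.TensorProduct.map_tmul, map_pow, map_one, y]

lemma dH_y8 : dH k (X 1 ^ 8) = (y k ^ 8) ⊗ₜ[k] (1 : H k) + (1 : H k) ⊗ₜ[k] (y k ^ 8) := by
  rw [dH, AlgHom.comp_apply, dK_X8]
  simp only [map_add, Algebra.TensorProduct.map_tmul, map_pow, map_one, y]

lemma dH_y2 : dH k (X 1 ^ 2) = (y k ^ 2) ⊗ₜ[k] (1 : H k) + (1 : H k) ⊗ₜ[k] (y k ^ 2) := by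
  rw [dH, AlgHom.comp_apply, dK_X2]
  simp only [map_add, Algebra.TensorProduct.map_tmul, map_pow, map_one, y]

lemma dH_x2 : dH k (X 0 ^ 2) = (x k ^ 2) ⊗ₜ[k] (1 : H k) + (1 : H k) ⊗ₜ[k] (x k ^ 2) := by
  rw [dH, AlgHom.comp_apply, dK_X2]
  simp only [map_add, Algebra.TensorProduct.map_tmul, map_pow, map_one, x]

lemma x_z : x k * z k = z k * x k + (y k ^ 8 + y k ^ 4) := by
  rw [x, io_z, D_x, map_add, map_pow, map_pow]; rfl

lemma y_z : y k * z k = z k * y k + (x k ^ 2 + y k ^ 2) := by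
  rw [y, io_z, D_y, map_add, map_pow, map_pow]; rfl

lemma x_y : x k * y k = y k * x k := by
  rw [x, y, ← map_mul, ← map_mul, mul_comm]

lemma hx_c : dH k (X 0) * Zc k = Zc k * dH k (X 0) + dH k (D k (X 0)) := by
  rw [D_x, map_add, dH_y8, dH_y4, dH_x, Zc]
  have c1 : Commute (x k) (y k) := x_y k
  simp only [add_mul, mul_add, Algebra.TensorProduct.tmul_mul_tmul, one_mul, mul_one, x_z,
    TensorProduct.add_tmul, TensorProduct.tmul_add, (c1.pow_right 2).eq, (c1.pow_right 4).eq, c1.eq]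
  abel

lemma hy_c : dH k (X 1) * Zc k = Zc k * dH k (X 1) + dH k (D k (X 1)) := by
  rw [D_y, map_add, dH_y2, dH_x2, dH_y, Zc]
  have c1 : Commute (x k) (y k) := x_y k
  simp only [add_mul, mul_add, Algebra.TensorProduct.tmul_mul_tmul, one_mul, mul_one, y_z,
    TensorProduct.add_tmul, TensorProduct.tmul_add, c1.eq, ← pow_succ, ← pow_succ']
  abel

lemma dH_g : dH k (g k) =
    (y k ^ 10) ⊗ₜ[k] (1 : H k) + (1 : H k) ⊗ₜ[k] (y k ^ 10) + (y k ^ 2) ⊗ₜ[k] (y k ^ 8) +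
      (y k ^ 8) ⊗ₜ[k] (y k ^ 2) + ((y k ^ 6) ⊗ₜ[k] (1 : H k) + (1 : H k) ⊗ₜ[k] (y k ^ 6) +
      (y k ^ 2) ⊗ₜ[k] (y k ^ 4) + (y k ^ 4) ⊗ₜ[k] (y k ^ 2)) := by
  rw [g, show (X 1 : K k) ^ 10 = X 1 ^ 2 * X 1 ^ 8 by ring,
    show (X 1 : K k) ^ 6 = X 1 ^ 2 * X 1 ^ 4 by ring, map_add, map_mul, map_mul, dH_y2, dH_y8,
    dH_y4]
  simp only [add_mul, mul_add, Algebra.TensorProduct.tmul_mul_tmul, one_mul, mul_one, ← pow_add]
  abel

lemma z_z' : z k * z k = y k ^ 10 + y k ^ 6 := by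
  rw [z_z, g, map_add, map_pow, map_pow]; rfl

lemma y2_z : y k ^ 2 * z k = z k * y k ^ 2 := by
  have h := io_z (k := k) (X 1 ^ 2)
  rw [D_sq, map_zero, add_zero, map_pow] at h
  exact h

lemma y4_z : y k ^ 4 * z k = z k * y k ^ 4 := by
  have h := io_z (k := k) ((X 1 ^ 2) ^ 2)
  rw [D_sq, map_zero, add_zero, ← pow_mul, map_pow] at h
  exact h

lemma Zc_Zc : Zc k * Zc k = dH k (g k) := by
  have c1 : Commute (x k) (y k) := x_y k
  have p1 : y k ^ 2 * y k ^ 2 = y k ^ 4 := by rw [← pow_add]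
  have p2 : y k ^ 2 * y k ^ 4 = y k ^ 6 := by rw [← pow_add]
  have p3 : y k ^ 4 * y k ^ 2 = y k ^ 6 := by rw [← pow_add]
  have p4 : y k ^ 4 * y k ^ 4 = y k ^ 8 := by rw [← pow_add]
  have p5 : x k * x k = x k ^ 2 := by rw [sq]
  have p6 : y k * y k = y k ^ 2 := by rw [sq]
  have key : Zc k * Zc k = dH k (g k) +
      ((z k ⊗ₜ[k] z k + (z k * x k) ⊗ₜ[k] (y k ^ 2) + (z k * y k) ⊗ₜ[k] (y k ^ 4) +
        x k ⊗ₜ[k] (z k * y k ^ 2) + y k ⊗ₜ[k] (z k * y k ^ 4) + (y k * x k) ⊗ₜ[k] (y k ^ 6) +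
        (x k ^ 2) ⊗ₜ[k] (y k ^ 4)) +
       (z k ⊗ₜ[k] z k + (z k * x k) ⊗ₜ[k] (y k ^ 2) + (z k * y k) ⊗ₜ[k] (y k ^ 4) +
        x k ⊗ₜ[k] (z k * y k ^ 2) + y k ⊗ₜ[k] (z k * y k ^ 4) + (y k * x k) ⊗ₜ[k] (y k ^ 6) +
        (x k ^ 2) ⊗ₜ[k] (y k ^ 4))) := by
    rw [dH_g, Zc]
    simp only [add_mul, mul_add, Algebra.TensorProduct.tmul_mul_tmul, one_mul, mul_one, y_z, x_z,
      z_z', y2_z, y4_z, TensorProduct.add_tmul, TensorProduct.tmul_add, p1, p2, p3, p4, p5, p6,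
      c1.eq]
    abel
  exact key.trans ((congrArg (fun t => dH k (g k) + t)
    (add_self_alg (k := k) (B := H k ⊗[k] H k) _)).trans (add_zero _))

lemma comm_c (b : K k) : dH k b * Zc k = Zc k * dH k b + dH k (D k b) :=
  comm_of_gen (B := H k ⊗[k] H k) (dH k) (Zc k) (hx_c k) (hy_c k) b

/-- the coproduct -/
noncomputable def Del : H k →ₐ[k] (H k ⊗[k] H k) :=
  lift (B := H k ⊗[k] H k) (dH k) (Zc k) (comm_c k) (Zc_Zc k)

end hopf

end Pool.Agent.Helper815.GK2
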