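import Pool.Agent.Helper815.GK2.Hopf

set_option autoImplicit false
set_option linter.unusedSectionVars false
set_option linter.unusedSimpArgs false

namespace Pool.Agent.Helper815.GK2

open MvPolynomial TensorProduct

section hopf
variable (k : Type) [Field k] [CharP k 2]

lemma Del_io (a : K k) : Del k (io a) = dH k a := by
  rw [Del, lift_apply, fa_io, fb_io, map_zero, mul_zero, add_zero]

lemma Del_x : Del k (x k) = x k ⊗ₜ[k] (1 : H k) + (1 : H k) ⊗ₜ[k] x k :=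
  (Del_io k (X 0)).trans (dH_x k)

lemma Del_y : Del k (y k) = y k ⊗ₜ[k] (1 : H k) + (1 : H k) ⊗ₜ[k] y k :=
  (Del_io k (X 1)).trans (dH_y k)

lemma Del_z : Del k (z k) = z k ⊗ₜ[k] (1 : H k) + (1 : H k) ⊗ₜ[k] z k + x k ⊗ₜ[k] (y k ^ 2) +
    y k ⊗ₜ[k] (y k ^ 4) := by
  rw [Del, lift_apply, fa_z, fb_z, map_zero, map_one, mul_one, zero_add, Zc]

/-- the counit on `K` -/
noncomputable def cK : K k →ₐ[k] k := MvPolynomial.aeval fun _ => 0

lemma cK_D (b : K k) : cK k b * 0 = 0 * cK k b + cK k (D k b) :=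
  comm_of_gen (B := k) (cK k) 0 (by simp [cK, D_x]) (by simp [cK, D_y]) b

/-- the counit -/
noncomputable def Eps : H k →ₐ[k] k :=
  lift (B := k) (cK k) 0 (cK_D k) (by simp [cK, g])

lemma Eps_x : Eps k (x k) = 0 := by
  rw [Eps, lift_apply, x, fa_io, fb_io]; simp [cK]
lemma Eps_y : Eps k (y k) = 0 := by
  rw [Eps, lift_apply, y, fa_io, fb_io]; simp [cK]
lemma Eps_z : Eps k (z k) = 0 := by
  rw [Eps, lift_apply, fa_z, fb_z]; simp

lemma Del_sq (a : H k) (h : Del k a = a ⊗ₜ[k] (1 : H k) + (1 : H k) ⊗ₜ[k] a) :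
    Del k (a ^ 2) = (a ^ 2) ⊗ₜ[k] (1 : H k) + (1 : H k) ⊗ₜ[k] (a ^ 2) := by
  have key : Del k (a ^ 2) = (a ^ 2) ⊗ₜ[k] (1 : H k) + (1 : H k) ⊗ₜ[k] (a ^ 2) +
      (a ⊗ₜ[k] a + a ⊗ₜ[k] a) := by
    rw [sq, map_mul, h]
    simp only [add_mul, mul_add, Algebra.TensorProduct.tmul_mul_tmul, one_mul, mul_one]
    abel
  exact key.trans ((congrArg (fun t => (a ^ 2) ⊗ₜ[k] (1 : H k) + (1 : H k) ⊗ₜ[k] (a ^ 2) + t)
    (add_self_alg (k := k) (B := H k ⊗[k] H k) _)).trans (add_zero _))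

lemma Del_y2 : Del k (y k ^ 2) = (y k ^ 2) ⊗ₜ[k] (1 : H k) + (1 : H k) ⊗ₜ[k] (y k ^ 2) :=
  Del_sq k _ (Del_y k)

lemma Del_y4 : Del k (y k ^ 4) = (y k ^ 4) ⊗ₜ[k] (1 : H k) + (1 : H k) ⊗ₜ[k] (y k ^ 4) := by
  have h := Del_sq k _ (Del_y2 k)
  rw [← pow_mul] at h
  exact h

lemma coass : (Algebra.TensorProduct.assoc k k k (H k) (H k) (H k)).toAlgHom.comp
      ((Algebra.TensorProduct.map (Del k) (.id k (H k))).comp (Del k))
      = (Algebra.TensorProduct.map (.id k (H k)) (Del k)).comp (Del k) := by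
  have as_t : ∀ a b c : H k, (Algebra.TensorProduct.assoc k k k (H k) (H k) (H k)).toAlgHom
    ((a ⊗ₜ[k] b) ⊗ₜ[k] c) = a ⊗ₜ[k] (b ⊗ₜ[k] c) := fun _ _ _ => rfl
  apply hom_ext (B := H k ⊗[k] (H k ⊗[k] H k))
  · simp only [AlgHom.comp_apply, Del_x, map_add, Algebra.TensorProduct.map_tmul, map_one,
      AlgHom.id_apply, TensorProduct.add_tmul, TensorProduct.tmul_add,
      Algebra.TensorProduct.one_def, as_t]
    abel
  · simp only [AlgHom.comp_apply, Del_y, map_add, Algebra.TensorProduct.map_tmul, map_one,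
      AlgHom.id_apply, TensorProduct.add_tmul, TensorProduct.tmul_add,
      Algebra.TensorProduct.one_def, as_t]
    abel
  · simp only [AlgHom.comp_apply, Del_z, Del_x, Del_y, Del_y2, Del_y4, map_add,
      Algebra.TensorProduct.map_tmul, map_one,
      AlgHom.id_apply, TensorProduct.add_tmul, TensorProduct.tmul_add,
      Algebra.TensorProduct.one_def, as_t]
    abel

lemma rT : (Algebra.TensorProduct.map (Eps k) (.id k (H k))).comp (Del k)
      = (Algebra.TensorProduct.lid k (H k)).symm := by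
  apply hom_ext (B := k ⊗[k] H k)
  · simp [Del_x, Eps_x, Algebra.TensorProduct.map_tmul]
  · simp [Del_y, Eps_y, Algebra.TensorProduct.map_tmul]
  · simp [Del_z, Eps_z, Eps_x, Eps_y, Algebra.TensorProduct.map_tmul]

lemma lT : (Algebra.TensorProduct.map (.id k (H k)) (Eps k)).comp (Del k)
      = (Algebra.TensorProduct.rid k k (H k)).symm := by
  apply hom_ext (B := H k ⊗[k] k)
  · simp [Del_x, Eps_x, Algebra.TensorProduct.map_tmul]
  · simp [Del_y, Eps_y, Algebra.TensorProduct.map_tmul]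
  · simp [Del_z, Eps_z, Eps_x, Eps_y, Algebra.TensorProduct.map_tmul]

noncomputable instance instBialg : Bialgebra k (H k) :=
  Bialgebra.ofAlgHom (Del k) (Eps k) (coass k) (rT k) (lT k)

end hopf

end Pool.Agent.Helper815.GK2
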