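import Pool.Agent.Helper815.GK2.Defs

set_option autoImplicit false

/-!
Characteristic 2.  `K = k[x,y]`, `D` the derivation with `D x = y^8 + y^4`, `D y = x^2 + y^2`,
`g = y^10 + y^6`.  `H` is the algebra `K ⊕ z K` with `a z = z a + D a` for `a` in `K` and
`z^2 = g`, realised inside the 2 x 2 matrices over `K`
(`a + z b` is the matrix `[[a, D a + g b], [b, a + D b]]`).
-/

namespace Pool.Agent.Helper815.GK2
open MvPolynomial TensorProduct


theorem antipode_ext {k A : Type} [Field k] [Ring A] [Bialgebra k A] (S : A →ₐ[k] Aᵐᵒᵖ)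
    (T : A →ₗ[k] A) (hT : ∀ a, T a = MulOpposite.unop (S a)) (s : Set A)
    (hs : Algebra.adjoin k s = ⊤)
    (h1 : ∀ a ∈ s, LinearMap.mul' k A (TensorProduct.map T LinearMap.id
      (Coalgebra.comul (R := k) a)) = algebraMap k A (Coalgebra.counit (R := k) a))
    (h2 : ∀ a ∈ s, LinearMap.mul' k A (TensorProduct.map LinearMap.id T
      (Coalgebra.comul (R := k) a)) = algebraMap k A (Coalgebra.counit (R := k) a)) (a : A) :
    LinearMap.mul' k A (TensorProduct.map T LinearMap.id (Coalgebra.comul (R := k) a)) =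
        algebraMap k A (Coalgebra.counit (R := k) a) ∧
    LinearMap.mul' k A (TensorProduct.map LinearMap.id T (Coalgebra.comul (R := k) a)) =
        algebraMap k A (Coalgebra.counit (R := k) a) := by
  have hT1 : T 1 = 1 := by rw [hT, map_one, MulOpposite.unop_one]
  have hTm : ∀ a b, T (a * b) = T b * T a := by
    intro a b
    rw [hT, hT, hT, map_mul, MulOpposite.unop_mul]
  set c1 : A ⊗[k] A →ₗ[k] A := (LinearMap.mul' k A).comp (TensorProduct.map T LinearMap.id) with hc1
  set c2 : A ⊗[k] A →ₗ[k] A := (LinearMap.mul' k A).comp (TensorProduct.map LinearMap.id T) with hc2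
  have e1 : ∀ p q : A, c1 (p ⊗ₜ[k] q) = T p * q := by
    intro p q
    simp [hc1]
  have e2 : ∀ p q : A, c2 (p ⊗ₜ[k] q) = p * T q := by
    intro p q
    simp [hc2]
  have f1 : ∀ (u : A ⊗[k] A) (a b : A), c1 (u * (a ⊗ₜ[k] b)) = T a * c1 u * b := by
    intro u a b
    induction u using TensorProduct.induction_on with
    | zero => simp
    | tmul p q =>
      rw [Algebra.TensorProduct.tmul_mul_tmul, e1, e1, hTm]
      simp only [mul_assoc]
    | add x y hx hy => rw [add_mul, map_add, map_add, hx, hy, mul_add, add_mul]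
  have f2 : ∀ (u : A ⊗[k] A) (a b : A), c2 ((a ⊗ₜ[k] b) * u) = a * c2 u * T b := by
    intro u a b
    induction u using TensorProduct.induction_on with
    | zero => simp
    | tmul p q =>
      rw [Algebra.TensorProduct.tmul_mul_tmul, e2, e2, hTm]
      simp only [mul_assoc]
    | add x y hx hy => rw [mul_add, map_add, map_add, hx, hy, mul_add, add_mul]
  have g1 : ∀ (u t : A ⊗[k] A) (r : k), c1 u = algebraMap k A r →
      c1 (u * t) = algebraMap k A r * c1 t := by
    intro u t r hu
    induction t using TensorProduct.induction_on with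
    | zero => simp
    | tmul p q =>
      rw [f1, hu, e1, ← Algebra.commutes r (T p), mul_assoc]
    | add x y hx hy => rw [mul_add, map_add, map_add, hx, hy, mul_add]
  have g2 : ∀ (u t : A ⊗[k] A) (r : k), c2 u = algebraMap k A r →
      c2 (t * u) = algebraMap k A r * c2 t := by
    intro u t r hu
    induction t using TensorProduct.induction_on with
    | zero => simp
    | tmul p q =>
      rw [f2, hu, e2, ← Algebra.commutes r p, mul_assoc]
    | add x y hx hy => rw [add_mul, map_add, map_add, hx, hy, mul_add]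
  have ha : a ∈ Algebra.adjoin k s := by rw [hs]; exact Algebra.mem_top
  show c1 (Coalgebra.comul (R := k) a) = algebraMap k A (Coalgebra.counit (R := k) a) ∧
    c2 (Coalgebra.comul (R := k) a) = algebraMap k A (Coalgebra.counit (R := k) a)
  induction ha using Algebra.adjoin_induction with
  | mem x hx => exact ⟨h1 x hx, h2 x hx⟩
  | algebraMap r =>
    have h3 : Coalgebra.comul (R := k) (algebraMap k A r) = algebraMap k (A ⊗[k] A) r :=
      Bialgebra.comul_algebraMap r
    have h4 : Coalgebra.counit (R := k) (algebraMap k A r) = r :=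
      Bialgebra.counit_algebraMap r
    have h5 : algebraMap k (A ⊗[k] A) r = r • ((1:A) ⊗ₜ[k] (1:A)) := by
      rw [Algebra.algebraMap_eq_smul_one, Algebra.TensorProduct.one_def]
    rw [h3, h4, h5, map_smul, map_smul, e1, e2, hT1, mul_one, Algebra.algebraMap_eq_smul_one]
    exact ⟨rfl, rfl⟩
  | add x y _ _ hx hy =>
    rw [map_add, map_add, map_add, map_add, map_add, hx.1, hx.2, hy.1, hy.2]
    exact ⟨rfl, rfl⟩
  | mul x y _ _ hx hy =>
    have h3 : Coalgebra.comul (R := k) (x * y) = Coalgebra.comul (R := k) x * Coalgebra.comul (R := k) y :=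
      Bialgebra.comul_mul x y
    have h4 : Coalgebra.counit (R := k) (x * y) = Coalgebra.counit (R := k) x * Coalgebra.counit (R := k) y :=
      Bialgebra.counit_mul x y
    rw [h3, h4]
    constructor
    · rw [g1 _ _ _ hx.1, hy.1, ← RingHom.map_mul]
    · rw [g2 _ _ _ hy.2, hx.2, ← RingHom.map_mul, mul_comm]

end Pool.Agent.Helper815.GK2
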