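import Pool.Agent.Helper815.GK2.Defs

set_option autoImplicit false

/-!
Characteristic 2.  `K = k[x,y]`, `D` the derivation with `D x = y^8 + y^4`, `D y = x^2 + y^2`,
`g = y^10 + y^6`.  `H` is the algebra `K ⊕ z K` with `a z = z a + D a` for `a` in `K` and
`z^2 = g`, realised inside the 2 x 2 matrices over `K`
(`a + z b` is the matrix `[[a, D a + g b], [b, a + D b]]`).
-/

namespace Pool.Agent.Helper815.GK2
open MvPolynomial TensorProduct


theorem gen_top (k : Type) [Field k] [CharP k 2] :
    Algebra.adjoin k ({x k, y k, z k} : Set (H k)) = ⊤ := by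
  rw [eq_top_iff]
  intro M _
  have hx : x k ∈ Algebra.adjoin k ({x k, y k, z k} : Set (H k)) :=
    Algebra.subset_adjoin (by simp)
  have hy : y k ∈ Algebra.adjoin k ({x k, y k, z k} : Set (H k)) :=
    Algebra.subset_adjoin (by simp)
  have hz : z k ∈ Algebra.adjoin k ({x k, y k, z k} : Set (H k)) :=
    Algebra.subset_adjoin (by simp)
  have hio : ∀ a : K k, io a ∈ Algebra.adjoin k ({x k, y k, z k} : Set (H k)) := by
    intro a
    induction a using MvPolynomial.induction_on with
    | C r =>
      have h : io (C r : K k) = algebraMap k (H k) r := io.commutes r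
      rw [h]
      exact Subalgebra.algebraMap_mem _ r
    | add p q hp hq =>
      rw [map_add]
      exact add_mem hp hq
    | mul_X p i hp =>
      rw [map_mul]
      refine mul_mem hp ?_
      fin_cases i
      · exact hx
      · exact hy
  rw [decomp M]
  exact add_mem (hio _) (mul_mem hz (hio _))

end Pool.Agent.Helper815.GK2
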