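import Pool.Agent.Helper815.GK2.Hopf2
import Pool.Agent.Helper815.GK2.P_antipode_ext
import Pool.Agent.Helper815.GK2.P_gen_top

set_option autoImplicit false
set_option linter.unusedSectionVars false
set_option linter.unusedSimpArgs false

namespace Pool.Agent.Helper815.GK2

open MvPolynomial TensorProduct

section hopf
variable (k : Type) [Field k] [CharP k 2]

/-- the map `K → Hᵐᵒᵖ` -/
noncomputable def fop : K k →ₐ[k] (H k)ᵐᵒᵖ where
  toFun a := MulOpposite.op (io a)
  map_one' := by simp
  map_mul' a b := by
    rw [← MulOpposite.op_mul, ← map_mul, mul_comm]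
  map_zero' := by simp
  map_add' a b := by simp
  commutes' r := by simp [MulOpposite.algebraMap_apply]

lemma fop_apply (a : K k) : fop k a = MulOpposite.op (io a) := rfl

/-- the polynomial `x y^2 + y^5` -/
noncomputable def q : K k := X 0 * X 1 ^ 2 + X 1 ^ 5

lemma D_q : D k (q k) = q k ^ 2 := by
  rw [q, map_add, Derivation.leibniz, D_sq, D_x, Derivation.leibniz_pow, D_y]
  simp only [smul_eq_mul, nsmul_eq_mul]
  push_cast
  linear_combination (2 * X 0 ^ 2 * X 1 ^ 4 + 3 * X 1 ^ 6 - X 0 * X 1 ^ 7) * two_K (k := k)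

/-- the image of `z` under the antipode -/
noncomputable def s : H k := z k + io (q k)

lemma s_comm (b : K k) : s k * io b = io b * s k + io (D k b) := by
  have h := add_self_alg (k := k) (io (D k b))
  rw [s, add_mul, mul_add, io_z, ← map_mul, ← map_mul, mul_comm b]
  calc z k * io b + io (q k * b) = z k * io b + io (q k * b) + 0 := (add_zero _).symm
    _ = z k * io b + io (q k * b) + (io (D k b) + io (D k b)) := by rw [h]
    _ = _ := by abel

lemma s_s : s k * s k = io (g k) := by
  have h := add_self_alg (k := k) (z k * io (q k))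
  have h' := add_self_alg (k := k) (io (k := k) (q k ^ 2))
  have e : s k * s k = z k * z k + (z k * io (q k) + io (q k) * z k) + io (q k ^ 2) := by
    rw [s, sq, map_mul]
    noncomm_ring
  rw [e, io_z, D_q, ← add_assoc (z k * io (q k)), h, zero_add, z_z, add_assoc, h', add_zero]

/-- the antipode as an algebra map to the opposite algebra -/
noncomputable def Sop : H k →ₐ[k] (H k)ᵐᵒᵖ :=
  lift (B := (H k)ᵐᵒᵖ) (fop k) (MulOpposite.op (s k))
    (by
      intro b
      rw [fop_apply, fop_apply, ← MulOpposite.op_mul, ← MulOpposite.op_mul, s_comm,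
        MulOpposite.op_add])
    (by rw [fop_apply, ← MulOpposite.op_mul, s_s])

/-- the antipode -/
noncomputable def T : H k →ₗ[k] H k :=
  (MulOpposite.opLinearEquiv k).symm.toLinearMap ∘ₗ (Sop k).toLinearMap

lemma T_apply (a : H k) : T k a = MulOpposite.unop (Sop k a) := rfl

lemma T_io (a : K k) : T k (io a) = io a := by
  rw [T_apply, Sop, lift_apply, fa_io, fb_io, map_zero, mul_zero, add_zero, fop_apply,
    MulOpposite.unop_op]

lemma T_x : T k (x k) = x k := T_io k _
lemma T_y : T k (y k) = y k := T_io k _
lemma T_y2 : T k (y k ^ 2) = y k ^ 2 := by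
  have h := T_io k (X 1 ^ 2)
  rwa [map_pow] at h
lemma T_y4 : T k (y k ^ 4) = y k ^ 4 := by
  have h := T_io k (X 1 ^ 4)
  rwa [map_pow] at h
lemma T_one : T k 1 = 1 := by
  have h := T_io k 1
  rwa [map_one] at h
lemma T_z : T k (z k) = z k + x k * y k ^ 2 + y k ^ 5 := by
  rw [T_apply, Sop, lift_apply, fa_z, fb_z, map_zero, map_one, mul_one, zero_add,
    MulOpposite.unop_op, s, q, map_add, map_mul, map_pow, map_pow, add_assoc]
  rfl

lemma comul_eq (a : H k) : Coalgebra.comul (R := k) a = Del k a := rfl
lemma counit_eq (a : H k) : Coalgebra.counit (R := k) a = Eps k a := rfl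

lemma anti (a : H k) :
    LinearMap.mul' k (H k) (TensorProduct.map (T k) LinearMap.id (Coalgebra.comul (R := k) a)) =
        algebraMap k (H k) (Coalgebra.counit (R := k) a) ∧
    LinearMap.mul' k (H k) (TensorProduct.map LinearMap.id (T k) (Coalgebra.comul (R := k) a)) =
        algebraMap k (H k) (Coalgebra.counit (R := k) a) := by
  have h2 := fun b : H k => add_self_alg (k := k) b
  have hxx : ∀ b c d : H k, (b + c + d) + b + c + d = 0 := by
    intro b c d
    have e : (b + c + d) + b + c + d = (b + b) + (c + c) + (d + d) := by abel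
    rw [e, h2 b, h2 c, h2 d, add_zero, add_zero]
  have hyy : ∀ b c d : H k, b + (b + c + d) + c + d = 0 := by
    intro b c d
    have e : b + (b + c + d) + c + d = (b + b) + (c + c) + (d + d) := by abel
    rw [e, h2 b, h2 c, h2 d, add_zero, add_zero]
  have hp : y k * y k ^ 4 = y k ^ 5 := by rw [← pow_succ']
  apply antipode_ext (Sop k) (T k) (fun a => rfl) _ (gen_top k)
  · rintro b (rfl | rfl | rfl)
    · rw [comul_eq, counit_eq, Del_x, Eps_x]
      simp [T_x, T_one, h2]
    · rw [comul_eq, counit_eq, Del_y, Eps_y]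
      simp [T_y, T_one, h2]
    · rw [comul_eq, counit_eq, Del_z, Eps_z]
      simp only [map_add, TensorProduct.map_tmul, LinearMap.mul'_apply, LinearMap.id_apply,
        T_x, T_y, T_z, T_one, one_mul, mul_one, hp, map_zero]
      exact hxx _ _ _
  · rintro b (rfl | rfl | rfl)
    · rw [comul_eq, counit_eq, Del_x, Eps_x]
      simp [T_x, T_one, h2]
    · rw [comul_eq, counit_eq, Del_y, Eps_y]
      simp [T_y, T_one, h2]
    · rw [comul_eq, counit_eq, Del_z, Eps_z]
      simp only [map_add, TensorProduct.map_tmul, LinearMap.mul'_apply, LinearMap.id_apply,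
        T_x, T_y, T_y2, T_y4, T_z, T_one, one_mul, mul_one, hp, map_zero]
      exact hyy _ _ _

noncomputable instance instHopf : HopfAlgebra k (H k) where
  antipode := T k
  mul_antipode_rTensor_comul := by
    exact LinearMap.ext fun a => (anti k a).1
  mul_antipode_lTensor_comul := by
    exact LinearMap.ext fun a => (anti k a).2

end hopf

end Pool.Agent.Helper815.GK2
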