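import Pool.Agent.Helper815.GK2.Defs

set_option autoImplicit false

/-!
Characteristic 2.  `K = k[x,y]`, `D` the derivation with `D x = y^8 + y^4`, `D y = x^2 + y^2`,
`g = y^10 + y^6`.  `H` is the algebra `K ⊕ z K` with `a z = z a + D a` for `a` in `K` and
`z^2 = g`, realised inside the 2 x 2 matrices over `K`
(`a + z b` is the matrix `[[a, D a + g b], [b, a + D b]]`).
-/

namespace Pool.Agent.Helper815.GK2
open MvPolynomial TensorProduct


theorem conn_filt {k A : Type} [Field k] [AddCommGroup A] [Module k A] [Coalgebra k A]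
    (F : ℕ → Submodule k A) (o : A) (h0 : F 0 ≤ Submodule.span k {o}) (hmono : Monotone F)
    (htop : ∀ a : A, ∃ n, a ∈ F n)
    (hF : ∀ n, ∀ a ∈ F n, Coalgebra.comul (R := k) a ∈
      ⨆ i : Fin (n + 1), LinearMap.range
        (TensorProduct.map (F (i : ℕ)).subtype (F (n - (i : ℕ))).subtype))
    (C : Submodule k A) (hC : C ≠ ⊥)
    (hCC : ∀ c ∈ C, Coalgebra.comul (R := k) c ∈
      LinearMap.range (TensorProduct.map C.subtype C.subtype)) : o ∈ C := by
  classical
  obtain ⟨c0, hc0, hc0'⟩ := Submodule.exists_mem_ne_zero_of_ne_bot hC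
  have hex : ∃ n, ∃ c ∈ C, c ≠ 0 ∧ c ∈ F n := by
    obtain ⟨n, hn⟩ := htop c0
    exact ⟨n, c0, hc0, hc0', hn⟩
  obtain ⟨n, ⟨c, hcC, hc, hcn⟩, hmin⟩ : ∃ n, (∃ c ∈ C, c ≠ 0 ∧ c ∈ F n) ∧
      ∀ m, m < n → ¬ (∃ c ∈ C, c ≠ 0 ∧ c ∈ F m) :=
    ⟨Nat.find hex, Nat.find_spec hex, fun m hm => Nat.find_min hex hm⟩
  rcases Nat.eq_zero_or_pos n with h | hn
  · subst h
    obtain ⟨a, ha⟩ := Submodule.mem_span_singleton.mp (h0 hcn)
    have ha0 : a ≠ 0 := by
      rintro rfl
      apply hc
      rw [← ha, zero_smul]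
    have hoc : o = a⁻¹ • c := by
      rw [← ha, smul_smul, inv_mul_cancel₀ ha0, one_smul]
    rw [hoc]
    exact C.smul_mem _ hcC
  · exfalso
    obtain ⟨m, rfl⟩ : ∃ m, n = m + 1 := ⟨n - 1, by omega⟩
    have hdisj : ∀ x ∈ C, x ∈ F m → x = 0 := by
      intro x hx hxm
      by_contra hne
      exact hmin m (by omega) ⟨x, hx, hne, hxm⟩
    let q : A →ₗ[k] A ⧸ F m := (F m).mkQ
    let j : C →ₗ[k] A ⧸ F m := q ∘ₗ C.subtype
    have hj : Function.Injective j := by
      rw [← LinearMap.ker_eq_bot, LinearMap.ker_eq_bot']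
      rintro ⟨x, hx⟩ hxj
      have hxm : x ∈ F m := (Submodule.Quotient.mk_eq_zero _).mp hxj
      exact Subtype.ext (hdisj x hx hxm)
    have hjj : Function.Injective (TensorProduct.map j j) :=
      TensorProduct.map_injective_of_flat_flat j j hj hj
    obtain ⟨t, ht⟩ := hCC c hcC
    have hker : (⨆ i : Fin (m + 1 + 1), LinearMap.range
        (TensorProduct.map (F (i : ℕ)).subtype (F (m + 1 - (i : ℕ))).subtype)) ≤
        LinearMap.ker (TensorProduct.map q q) := by
      apply iSup_le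
      intro i
      rintro _ ⟨w, rfl⟩
      rw [LinearMap.mem_ker, ← LinearMap.comp_apply, ← TensorProduct.map_comp]
      by_cases hi : (i : ℕ) ≤ m
      · have hz : q ∘ₗ (F (i : ℕ)).subtype = 0 := by
          ext ⟨x, hx⟩
          exact (Submodule.Quotient.mk_eq_zero _).mpr (hmono hi hx)
        rw [hz, TensorProduct.map_zero_left, LinearMap.zero_apply]
      · have hi2 : m + 1 - (i : ℕ) ≤ m := by omega
        have hz : q ∘ₗ (F (m + 1 - (i : ℕ))).subtype = 0 := by
          ext ⟨x, hx⟩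
          exact (Submodule.Quotient.mk_eq_zero _).mpr (hmono hi2 hx)
        rw [hz, TensorProduct.map_zero_right, LinearMap.zero_apply]
    have h1 : TensorProduct.map q q (Coalgebra.comul (R := k) c) = 0 := hker (hF _ c hcn)
    have h2 : TensorProduct.map j j t = 0 := by
      have e : TensorProduct.map j j =
          TensorProduct.map q q ∘ₗ TensorProduct.map C.subtype C.subtype :=
        TensorProduct.map_comp _ _ _ _
      rw [e, LinearMap.comp_apply, ht, h1]
    have h3 : t = 0 := hjj (by rw [h2, map_zero])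
    have h4 : Coalgebra.comul (R := k) c = 0 := by rw [← ht, h3, map_zero]
    have h5 := Coalgebra.rTensor_counit_comul (R := k) c
    rw [h4, map_zero] at h5
    apply hc
    have h6 : (TensorProduct.lid k A) ((1 : k) ⊗ₜ[k] c) = c := by simp
    rw [← h6, ← h5, map_zero]

end Pool.Agent.Helper815.GK2
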