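import Pool.Agent.Helper815.GK2.Defs

set_option autoImplicit false

/-!
Characteristic 2.  `K = k[x,y]`, `D` the derivation with `D x = y^8 + y^4`, `D y = x^2 + y^2`,
`g = y^10 + y^6`.  `H` is the algebra `K ⊕ z K` with `a z = z a + D a` for `a` in `K` and
`z^2 = g`, realised inside the 2 x 2 matrices over `K`
(`a + z b` is the matrix `[[a, D a + g b], [b, a + D b]]`).
-/

namespace Pool.Agent.Helper815.GK2
open MvPolynomial TensorProduct


theorem ric_sqc {k : Type} [Field k] [CharP k 2] (h : Polynomial k) (i : ℕ) :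
    (h ^ 2).coeff (2 * i) = (h.coeff i) ^ 2 := by
  rw [← Polynomial.map_frobenius_expand 2 h, Polynomial.coeff_map, mul_comm 2 i,
    Polynomial.coeff_expand_mul (by norm_num)]
  rfl

theorem ric_uni {k : Type} [Field k] [CharP k 2] (h0 h1 : Polynomial k)
    (e1 : Polynomial.derivative h1 = 0) (e0 : Polynomial.derivative h0 = h1 ^ 2)
    (e : h0 ^ 2 + (Polynomial.X ^ 8 + Polynomial.X ^ 4) * h1 + Polynomial.X ^ 2 * h1 ^ 2 =
      Polynomial.X ^ 10 + Polynomial.X ^ 6) : False := by
  have h20 : (2 : k) = 0 := by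
    have := CharP.cast_eq_zero k 2
    exact_mod_cast this
  have hb : ∀ j, h1.coeff (2 * j + 1) = 0 := by
    intro j
    have h := congrArg (fun p => Polynomial.coeff p (2 * j)) e1
    simp only [Polynomial.coeff_derivative, Polynomial.coeff_zero] at h
    push_cast at h
    rw [h20, zero_mul, zero_add, mul_one] at h
    exact h
  have ha : ∀ j, h0.coeff (2 * j + 1) = (h1.coeff j) ^ 2 := by
    intro j
    have h := congrArg (fun p => Polynomial.coeff p (2 * j)) e0
    simp only [Polynomial.coeff_derivative, ric_sqc] at h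
    push_cast at h
    rw [h20, zero_mul, zero_add, mul_one] at h
    exact h
  have hc : ∀ i, 4 ≤ i → (h0.coeff i) ^ 2 + (h1.coeff (2 * i - 8) + h1.coeff (2 * i - 4)) +
      (h1.coeff (i - 1)) ^ 2 = (if 2 * i = 10 then 1 else 0) + (if 2 * i = 6 then 1 else 0) := by
    intro i hi
    have h := congrArg (fun p => Polynomial.coeff p (2 * i)) e
    simp only [Polynomial.coeff_add, add_mul, Polynomial.coeff_X_pow_mul', Polynomial.coeff_X_pow,
      ric_sqc] at h
    rw [if_pos (by omega : 8 ≤ 2 * i), if_pos (by omega : 4 ≤ 2 * i), if_pos (by omega : 2 ≤ 2 * i),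
      show 2 * i - 2 = 2 * (i - 1) by omega, ric_sqc] at h
    exact h
  have h3 : (h0.coeff 3) ^ 2 + h1.coeff 2 + (h1.coeff 2) ^ 2 = 1 := by
    have h := congrArg (fun p => Polynomial.coeff p (2 * 3)) e
    simp only [Polynomial.coeff_add, add_mul, Polynomial.coeff_X_pow_mul', Polynomial.coeff_X_pow,
      ric_sqc] at h
    rw [if_neg (by omega : ¬ 8 ≤ 2 * 3), if_pos (by omega : 4 ≤ 2 * 3),
      if_pos (by omega : 2 ≤ 2 * 3), show 2 * 3 - 2 = 2 * 2 by omega, ric_sqc,
      if_neg (by omega : ¬ 2 * 3 = 10),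
      show 2 * 3 - 4 = 2 by omega] at h
    rw [zero_add, zero_add] at h
    simpa using h
  have hdeg : h1.natDegree ≤ 2 := by
    by_contra hcon
    push Not at hcon
    obtain ⟨m, hm⟩ : ∃ m, m = h1.natDegree := ⟨_, rfl⟩
    rw [← hm] at hcon
    have hlead : h1.coeff m ≠ 0 := by
      rw [hm]
      intro h0'
      have := Polynomial.leadingCoeff_eq_zero.1 h0'
      rw [this] at hm
      simp at hm
      omega
    have hgt : ∀ j, m < j → h1.coeff j = 0 := by
      intro j hj
      exact Polynomial.coeff_eq_zero_of_natDegree_lt (by omega)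
    have h := hc (2 * m + 1) (by omega)
    rw [ha m, hgt (2 * (2 * m + 1) - 8) (by omega), hgt (2 * (2 * m + 1) - 4) (by omega),
      hgt (2 * m + 1 - 1) (by omega), if_neg (by omega), if_neg (by omega)] at h
    simp at h
    exact hlead h
  have hgt : ∀ j, 2 < j → h1.coeff j = 0 := by
    intro j hj
    exact Polynomial.coeff_eq_zero_of_natDegree_lt (by omega)
  have h5 := hc 5 (by norm_num)
  have a3 := ha 1
  have b1 := hb 0
  have a5 := ha 2
  simp only [Nat.reduceMul, Nat.reduceAdd, Nat.reduceSub] at h5 a3 b1 a5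
  rw [b1] at a3
  rw [a3] at h3
  rw [a5, hgt 6 (by norm_num), hgt 4 (by norm_num)] at h5
  simp only [if_true, reduceIte] at h5
  norm_num at h3 h5
  generalize h1.coeff 2 = b at *
  have hb2 : b ^ 2 = 1 - b := by linear_combination h3
  have h6 : (b ^ 2) ^ 2 = 1 - b := by linear_combination h5
  rw [hb2] at h6
  have h7 : b ^ 2 - b = 0 := by linear_combination h6
  have h8 : (1 : k) = 0 := by
    linear_combination h7 - h3 + b * h20
  exact one_ne_zero h8

end Pool.Agent.Helper815.GK2
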