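import Pool.Agent.Helper815.GK2.Defs
import Pool.Agent.Helper815.GK2.P_ric_uni

set_option autoImplicit false

/-!
Characteristic 2.  `K = k[x,y]`, `D` the derivation with `D x = y^8 + y^4`, `D y = x^2 + y^2`,
`g = y^10 + y^6`.  `H` is the algebra `K ⊕ z K` with `a z = z a + D a` for `a` in `K` and
`z^2 = g`, realised inside the 2 x 2 matrices over `K`
(`a + z b` is the matrix `[[a, D a + g b], [b, a + D b]]`).
-/

namespace Pool.Agent.Helper815.GK2
open MvPolynomial TensorProduct


noncomputable def ric_poly_e (k : Type) [Field k] :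
    MvPolynomial (Fin 2) k →ₐ[k] Polynomial (Polynomial k) :=
  MvPolynomial.aeval ![Polynomial.X, Polynomial.C Polynomial.X]

lemma ric_poly_e_x {k : Type} [Field k] :
    ric_poly_e k (X 0) = (Polynomial.X : Polynomial (Polynomial k)) := by
  simp [ric_poly_e]

lemma ric_poly_e_y {k : Type} [Field k] :
    ric_poly_e k (X 1) = (Polynomial.C Polynomial.X : Polynomial (Polynomial k)) := by
  simp [ric_poly_e]

lemma ric_poly_e_C {k : Type} [Field k] (r : k) :
    ric_poly_e k (C r) = (Polynomial.C (Polynomial.C r) : Polynomial (Polynomial k)) := by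
  rw [ric_poly_e, MvPolynomial.aeval_C]
  rfl

/-- the polynomial `X ^ 8 + X ^ 4` -/
noncomputable def ric_poly_Q (k : Type) [Field k] : Polynomial k := Polynomial.X ^ 8 + Polynomial.X ^ 4

/-- coefficient of the derivation -/
noncomputable def ric_poly_cf {k : Type} [Field k] (f : Polynomial (Polynomial k)) (i : ℕ) : Polynomial k :=
  ric_poly_Q k * (((i : Polynomial k) + 1) * f.coeff (i + 1)) +
    (if 2 ≤ i then Polynomial.derivative (f.coeff (i - 2)) else 0) +
    Polynomial.X ^ 2 * Polynomial.derivative (f.coeff i)

lemma ric_poly_D {k : Type} [Field k] [CharP k 2] (f : K k) :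
    ∀ i : ℕ, (ric_poly_e k (D k f)).coeff i = ric_poly_cf (ric_poly_e k f) i := by
  induction f using MvPolynomial.induction_on with
  | C r =>
    intro i
    have h1 : D k (C r) = 0 := by
      have : (C r : K k) = algebraMap k (K k) r := rfl
      rw [this]
      exact (D k).map_algebraMap r
    rw [h1, map_zero, Polynomial.coeff_zero, ric_poly_cf, ric_poly_e_C]
    have h2 : ∀ j : ℕ, Polynomial.derivative ((Polynomial.C (Polynomial.C r) : Polynomial (Polynomial k)).coeff j) = 0 := by
      intro j
      rw [Polynomial.coeff_C]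
      split_ifs
      · exact Polynomial.derivative_C
      · exact Polynomial.derivative_zero
    have h3 : (Polynomial.C (Polynomial.C r) : Polynomial (Polynomial k)).coeff (i + 1) = 0 :=
      Polynomial.coeff_C_succ
    rw [h2, h2, h3]
    simp
  | add p q hp hq =>
    intro i
    rw [map_add, map_add, map_add, Polynomial.coeff_add, hp, hq]
    simp only [ric_poly_cf, Polynomial.coeff_add, Polynomial.derivative_add]
    split_ifs <;> ring
  | mul_X p j hp =>
    fin_cases j
    · -- multiplication by x
      intro i
      have e1 : ric_poly_e k (p * X 0) = ric_poly_e k p * Polynomial.X := by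
        rw [map_mul, ric_poly_e_x]
      have e2 : ric_poly_e k (D k (p * X 0)) = ric_poly_e k p * Polynomial.C (ric_poly_Q k) +
          ric_poly_e k (D k p) * Polynomial.X := by
        rw [Derivation.leibniz, D_x, smul_eq_mul, smul_eq_mul, map_add, map_mul, map_mul, map_add, map_pow,
          map_pow, ric_poly_e_x, ric_poly_e_y, ric_poly_Q]
        rw [Polynomial.C_add, Polynomial.C_pow, Polynomial.C_pow]
        ring
      show (ric_poly_e k (D k (p * X 0))).coeff i = ric_poly_cf (ric_poly_e k (p * X 0)) i
      rw [e1, e2, Polynomial.coeff_add, Polynomial.coeff_mul_C]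
      set P := ric_poly_e k p with hP
      rcases i with _ | i
      · simp only [ric_poly_cf, Polynomial.coeff_mul_X, Polynomial.mul_coeff_zero,
          Polynomial.coeff_X_zero, mul_zero, Polynomial.derivative_zero]
        simp
        ring
      · rw [Polynomial.coeff_mul_X, hp i]
        rcases i with _ | i
        · simp only [ric_poly_cf, Polynomial.coeff_mul_X]
          simp
          ring
        · rcases i with _ | i
          · simp only [ric_poly_cf, Polynomial.coeff_mul_X]
            simp
            ring
          · have s1 : i + 1 + 1 - 2 = i := by omega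
            have s2 : i + 1 + 1 + 1 - 2 = i + 1 := by omega
            have c1 : 2 ≤ i + 1 + 1 := by omega
            have c2 : 2 ≤ i + 1 + 1 + 1 := by omega
            simp only [ric_poly_cf, Polynomial.coeff_mul_X, if_pos c1, if_pos c2, s1, s2]
            push_cast
            ring
    · -- multiplication by y
      intro i
      have e1 : ric_poly_e k (p * X 1) = ric_poly_e k p * Polynomial.C Polynomial.X := by
        rw [map_mul, ric_poly_e_y]
      have e2 : ric_poly_e k (D k (p * X 1)) = ric_poly_e k p * Polynomial.X ^ 2 +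
          ric_poly_e k p * Polynomial.C (Polynomial.X ^ 2) +
          ric_poly_e k (D k p) * Polynomial.C Polynomial.X := by
        rw [Derivation.leibniz, D_y, smul_eq_mul, smul_eq_mul, map_add, map_mul, map_mul, map_add, map_pow,
          map_pow, ric_poly_e_x, ric_poly_e_y, Polynomial.C_pow]
        ring
      show (ric_poly_e k (D k (p * X 1))).coeff i = ric_poly_cf (ric_poly_e k (p * X 1)) i
      rw [e1, e2, Polynomial.coeff_add, Polynomial.coeff_add, Polynomial.coeff_mul_C,
        Polynomial.coeff_mul_C, Polynomial.coeff_mul_X_pow', hp i]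
      simp only [ric_poly_cf, Polynomial.coeff_mul_C, Polynomial.derivative_mul, Polynomial.derivative_X]
      split_ifs <;> ring

lemma ric_poly_deg0 {k : Type} [Field k] [CharP k 2] (f : Polynomial k)
    (hf : f ^ 2 + Polynomial.derivative f = 0) : f = 0 := by
  by_contra hne
  have h1 : f ^ 2 = -Polynomial.derivative f := eq_neg_of_add_eq_zero_left hf
  have h2 : (f ^ 2).natDegree = 2 * f.natDegree := Polynomial.natDegree_pow f 2
  have h3 : (-Polynomial.derivative f).natDegree ≤ f.natDegree - 1 := by
    rw [Polynomial.natDegree_neg]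
    exact Polynomial.natDegree_derivative_le f
  rw [← h1, h2] at h3
  have h4 : f.natDegree = 0 := by omega
  have h5 : Polynomial.derivative f = 0 := by
    rw [Polynomial.eq_C_of_natDegree_eq_zero h4]
    exact Polynomial.derivative_C
  rw [h5, neg_zero] at h1
  exact hne (pow_eq_zero_iff (two_ne_zero)|>.1 h1)

theorem ric_poly {k : Type} [Field k] [CharP k 2] (h : K k) (hh : h ^ 2 + D k h = g k) :
    False := by
  set H : Polynomial (Polynomial k) := ric_poly_e k h with hH
  have hg : ric_poly_e k (g k) = Polynomial.C (Polynomial.X ^ 10 + Polynomial.X ^ 6) := by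
    rw [g, map_add, map_pow, map_pow, ric_poly_e_y, Polynomial.C_add, Polynomial.C_pow, Polynomial.C_pow]
  have main : ∀ i : ℕ, (H * H).coeff i + ric_poly_cf H i =
      (Polynomial.C (Polynomial.X ^ 10 + Polynomial.X ^ 6) : Polynomial (Polynomial k)).coeff i := by
    intro i
    rw [← hg, ← hh, map_add, map_pow, Polynomial.coeff_add, ric_poly_D, ← hH, sq]
  have hn : H.natDegree ≤ 2 := by
    by_contra hcon
    push Not at hcon
    have m := main (H.natDegree + H.natDegree)
    rw [Polynomial.coeff_mul_degree_add_degree, Polynomial.coeff_C, if_neg (by omega), ric_poly_cf] at m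
    have z1 : H.coeff (H.natDegree + H.natDegree + 1) = 0 :=
      Polynomial.coeff_eq_zero_of_natDegree_lt (by omega)
    have z2 : H.coeff (H.natDegree + H.natDegree - 2) = 0 :=
      Polynomial.coeff_eq_zero_of_natDegree_lt (by omega)
    have z3 : H.coeff (H.natDegree + H.natDegree) = 0 :=
      Polynomial.coeff_eq_zero_of_natDegree_lt (by omega)
    rw [z1, z2, z3] at m
    simp at m
    rw [m] at hcon
    simp at hcon
  have z : ∀ i : ℕ, 3 ≤ i → H.coeff i = 0 := fun i hi =>
    Polynomial.coeff_eq_zero_of_natDegree_lt (by omega)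
  have c4 : (H * H).coeff 4 = H.coeff 2 ^ 2 := by
    rw [Polynomial.coeff_mul, Finset.Nat.sum_antidiagonal_eq_sum_range_succ_mk]
    simp only [Finset.sum_range_succ, Finset.sum_range_zero]
    norm_num
    rw [z 4 (by omega), z 3 (by omega)]
    ring
  have c3 : (H * H).coeff 3 = H.coeff 1 * H.coeff 2 + H.coeff 2 * H.coeff 1 := by
    rw [Polynomial.coeff_mul, Finset.Nat.sum_antidiagonal_eq_sum_range_succ_mk]
    simp only [Finset.sum_range_succ, Finset.sum_range_zero]
    norm_num
    rw [z 3 (by omega)]
    ring
  have c2 : (H * H).coeff 2 = H.coeff 0 * H.coeff 2 + H.coeff 1 ^ 2 + H.coeff 2 * H.coeff 0 := by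
    rw [Polynomial.coeff_mul, Finset.Nat.sum_antidiagonal_eq_sum_range_succ_mk]
    simp only [Finset.sum_range_succ, Finset.sum_range_zero]
    norm_num
    ring
  have c0 : (H * H).coeff 0 = H.coeff 0 ^ 2 := by
    rw [Polynomial.mul_coeff_zero, sq]
  have m4 := main 4
  have m3 := main 3
  have m2 := main 2
  have m0 := main 0
  rw [c4, Polynomial.coeff_C, if_neg (by norm_num), ric_poly_cf, z 4 (by omega), z (4 + 1) (by omega)] at m4
  have h2 : H.coeff 2 = 0 := by
    refine ric_poly_deg0 _ ?_
    simpa using m4
  rw [c3, Polynomial.coeff_C, if_neg (by norm_num), ric_poly_cf, z 3 (by omega), z (3 + 1) (by omega), h2] at m3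
  have h1' : Polynomial.derivative (H.coeff 1) = 0 := by
    simpa using m3
  rw [c2, Polynomial.coeff_C, if_neg (by norm_num), ric_poly_cf, z (2 + 1) (by omega), h2] at m2
  have h0' : Polynomial.derivative (H.coeff 0) = H.coeff 1 ^ 2 := by
    have h3 : H.coeff 1 ^ 2 + Polynomial.derivative (H.coeff 0) = 0 := by simpa using m2
    have h4 : Polynomial.derivative (H.coeff 0) = -(H.coeff 1 ^ 2) := eq_neg_of_add_eq_zero_right h3
    rw [h4]
    exact neg_alg (k := k) _
  rw [c0, Polynomial.coeff_C, if_pos rfl, ric_poly_cf, h0'] at m0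
  refine ric_uni (H.coeff 0) (H.coeff 1) h1' h0' ?_
  rw [← m0, ric_poly_Q]
  simp
  ring

end Pool.Agent.Helper815.GK2
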