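import Pool.Agent.Helper815.GK2.Defs
import Pool.Agent.Helper815.GK2.P_ric_poly

set_option autoImplicit false

/-!
Characteristic 2.  `K = k[x,y]`, `D` the derivation with `D x = y^8 + y^4`, `D y = x^2 + y^2`,
`g = y^10 + y^6`.  `H` is the algebra `K ⊕ z K` with `a z = z a + D a` for `a` in `K` and
`z^2 = g`, realised inside the 2 x 2 matrices over `K`
(`a + z b` is the matrix `[[a, D a + g b], [b, a + D b]]`).
-/

namespace Pool.Agent.Helper815.GK2
open MvPolynomial TensorProduct


theorem ric_frac {k : Type} [Field k] [CharP k 2] (c d : K k)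
    (h : c ^ 2 + c * D k d + d * D k c = g k * d ^ 2) : d = 0 := by
  by_contra hd
  obtain ⟨d1, c1, p, hrel, hpd, hpc⟩ := UniqueFactorizationMonoid.exists_reduced_factors d hd c
  have hp : p ≠ 0 := by
    rintro rfl
    rw [zero_mul] at hpd
    exact hd hpd.symm
  have hd1 : d1 ≠ 0 := by
    rintro rfl
    rw [mul_zero] at hpd
    exact hd hpd.symm
  have h1 : c1 ^ 2 + c1 * D k d1 + d1 * D k c1 = g k * d1 ^ 2 := by
    apply mul_left_cancel₀ (pow_ne_zero 2 hp)
    rw [← hpd, ← hpc, Derivation.leibniz, Derivation.leibniz] at h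
    simp only [smul_eq_mul] at h
    linear_combination h - (p * c1 * d1 * D k p) * two_K (k := k)
  have h2 : d1 ∣ c1 * (c1 + D k d1) := ⟨g k * d1 - D k c1, by linear_combination h1⟩
  have h3 : d1 ∣ c1 + D k d1 := hrel.dvd_of_dvd_mul_left h2
  obtain ⟨e, he⟩ := h3
  have hc1 : c1 = d1 * e - D k d1 := by linear_combination he
  have hDc : D k c1 = e * D k d1 + d1 * D k e := by
    rw [hc1, map_sub, D_D, Derivation.leibniz]
    simp only [smul_eq_mul]
    ring
  have h4 : d1 ^ 2 * (e ^ 2 + D k e) = d1 ^ 2 * g k := by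
    rw [hDc] at h1
    rw [hc1] at h1
    linear_combination h1
  exact ric_poly e (mul_left_cancel₀ (pow_ne_zero 2 hd1) h4)

end Pool.Agent.Helper815.GK2
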