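import Pool.Agent.Helper815.GK2.Defs
import Pool.Agent.Helper815.GK2.P_ric_frac

set_option autoImplicit false

/-!
Characteristic 2.  `K = k[x,y]`, `D` the derivation with `D x = y^8 + y^4`, `D y = x^2 + y^2`,
`g = y^10 + y^6`.  `H` is the algebra `K ⊕ z K` with `a z = z a + D a` for `a` in `K` and
`z^2 = g`, realised inside the 2 x 2 matrices over `K`
(`a + z b` is the matrix `[[a, D a + g b], [b, a + D b]]`).
-/

namespace Pool.Agent.Helper815.GK2
open MvPolynomial TensorProduct


theorem domain (k : Type) [Field k] [CharP k 2] : IsDomain (H k) := by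
  have : Nontrivial (H k) := by
    refine ⟨⟨0, 1, fun h => ?_⟩⟩
    have h' := congrArg fa h
    rw [fa_zero, fa_one] at h'
    exact zero_ne_one h'
  have : NoZeroDivisors (H k) := by
    refine ⟨?_⟩
    intro M N hMN
    have I1 : fa M * fa N + (D k (fa M) + g k * fb M) * fb N = 0 := by
      rw [← fa_mul, hMN, fa_zero]
    have I2 : fb M * fa N + (fa M + D k (fb M)) * fb N = 0 := by
      rw [← fb_mul, hMN, fb_zero]
    generalize ha : fa M = a at I1 I2
    generalize hb : fb M = b at I1 I2
    generalize hc : fa N = c at I1 I2
    generalize hd : fb N = d at I1 I2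
    by_cases hb0 : b = 0
    · subst hb0
      rw [map_zero, add_zero, zero_mul, zero_add] at I2
      rw [mul_zero, add_zero] at I1
      by_cases ha0 : a = 0
      · left
        exact ext_ab (by rw [ha, ha0, fa_zero]) (by rw [hb, fb_zero])
      · right
        have hd0 : d = 0 := (mul_eq_zero.mp I2).resolve_left ha0
        rw [hd0, mul_zero, add_zero] at I1
        have hc0 : c = 0 := (mul_eq_zero.mp I1).resolve_left ha0
        exact ext_ab (by rw [hc, hc0, fa_zero]) (by rw [hd, hd0, fb_zero])
    · right
      have I3 : D k (b * c + (a + D k b) * d) = 0 := by rw [I2, map_zero]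
      simp only [map_add, Derivation.leibniz, smul_eq_mul, D_D, add_zero] at I3
      have h2 : (2 : K k) = 0 := two_K
      have key : b * (c ^ 2 + c * D k d + d * D k c - g k * d ^ 2) = 0 := by
        generalize D k a = Da at *
        generalize D k b = Db at *
        generalize D k c = Dc at *
        generalize D k d = Dd at *
        generalize g k = G at *
        linear_combination (-d) * I1 + (c + Dd) * I2 + d * I3 - (c * d * Db + Dd * d * a + Dd * d * Db) * h2
      have hd0 : d = 0 := by
        apply ric_frac c d
        have := (mul_eq_zero.mp key).resolve_left hb0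
        exact sub_eq_zero.mp this
      rw [hd0, mul_zero, add_zero] at I2
      have hc0 : c = 0 := (mul_eq_zero.mp I2).resolve_left hb0
      exact ext_ab (by rw [hc, hc0, fa_zero]) (by rw [hd, hd0, fb_zero])
  exact NoZeroDivisors.to_isDomain _

end Pool.Agent.Helper815.GK2
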