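import Pool.Agent.Helper815.GK2.Defs

set_option autoImplicit false

/-!
Characteristic 2.  `K = k[x,y]`, `D` the derivation with `D x = y^8 + y^4`, `D y = x^2 + y^2`,
`g = y^10 + y^6`.  `H` is the algebra `K ⊕ z K` with `a z = z a + D a` for `a` in `K` and
`z^2 = g`, realised inside the 2 x 2 matrices over `K`
(`a + z b` is the matrix `[[a, D a + g b], [b, a + D b]]`).
-/

namespace Pool.Agent.Helper815.GK2
open MvPolynomial TensorProduct


section Filt

variable {k A : Type} [Field k] [Ring A] [Bialgebra k A]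

/-- words of weight at most `n` -/
def wset (e : Fin 3 → A) (n : ℕ) : Set A :=
  {a | ∃ l : List (Fin 3), (l.map (![1, 1, 5] : Fin 3 → ℕ)).sum ≤ n ∧ (l.map e).prod = a}

variable (k) in
def wF (e : Fin 3 → A) (n : ℕ) : Submodule k A := Submodule.span k (wset e n)

variable (k) in
def wTs (e : Fin 3 → A) (n : ℕ) : Set (A ⊗[k] A) :=
  {t | ∃ i j : ℕ, i + j ≤ n ∧ ∃ a ∈ wF k e i, ∃ b ∈ wF k e j, a ⊗ₜ[k] b = t}

variable (k) in
def wT (e : Fin 3 → A) (n : ℕ) : Submodule k (A ⊗[k] A) := Submodule.span k (wTs k e n)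

lemma wF_mono (e : Fin 3 → A) : Monotone (wF k e) := by
  intro m n hmn
  apply Submodule.span_mono
  rintro a ⟨l, hl, ha⟩
  exact ⟨l, hl.trans hmn, ha⟩

lemma wT_mono (e : Fin 3 → A) : Monotone (wT k e) := by
  intro m n hmn
  apply Submodule.span_mono
  rintro a ⟨i, j, hij, h⟩
  exact ⟨i, j, hij.trans hmn, h⟩

lemma wF_mul (e : Fin 3 → A) {m n : ℕ} {a b : A} (ha : a ∈ wF k e m) (hb : b ∈ wF k e n) :
    a * b ∈ wF k e (m + n) := by
  have h1 : a * b ∈ wF k e m * wF k e n := Submodule.mul_mem_mul ha hb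
  rw [wF, wF, Submodule.span_mul_span] at h1
  refine Submodule.span_mono ?_ h1
  rintro _ ⟨p, ⟨l, hl, rfl⟩, q, ⟨l', hl', rfl⟩, rfl⟩
  refine ⟨l ++ l', ?_, ?_⟩
  · rw [List.map_append, List.sum_append]; omega
  · rw [List.map_append, List.prod_append]

lemma wT_mul (e : Fin 3 → A) {m n : ℕ} {a b : A ⊗[k] A} (ha : a ∈ wT k e m) (hb : b ∈ wT k e n) :
    a * b ∈ wT k e (m + n) := by
  have h1 : a * b ∈ wT k e m * wT k e n := Submodule.mul_mem_mul ha hb
  rw [wT, wT, Submodule.span_mul_span] at h1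
  refine Submodule.span_mono ?_ h1
  rintro _ ⟨p, ⟨i, j, hij, a, ha, b, hb, rfl⟩, q, ⟨i', j', hij', a', ha', b', hb', rfl⟩, rfl⟩
  refine ⟨i + i', j + j', by omega, a * a', wF_mul e ha ha', b * b', wF_mul e hb hb', ?_⟩
  exact (Algebra.TensorProduct.tmul_mul_tmul a a' b b').symm

lemma one_mem_wF (e : Fin 3 → A) (n : ℕ) : (1 : A) ∈ wF k e n :=
  Submodule.subset_span ⟨[], by simp, by simp⟩

lemma e_mem_wF (e : Fin 3 → A) (i : Fin 3) : e i ∈ wF k e ((![1, 1, 5] : Fin 3 → ℕ) i) :=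
  Submodule.subset_span ⟨[i], by simp, by simp⟩

lemma tmul_mem_wT (e : Fin 3 → A) {i j n : ℕ} (h : i + j ≤ n) {a b : A} (ha : a ∈ wF k e i)
    (hb : b ∈ wF k e j) : a ⊗ₜ[k] b ∈ wT k e n :=
  Submodule.subset_span ⟨i, j, h, a, ha, b, hb, rfl⟩

lemma wF_pow (e : Fin 3 → A) {m : ℕ} {a : A} (ha : a ∈ wF k e m) (n : ℕ) :
    a ^ n ∈ wF k e (n * m) := by
  induction n with
  | zero => simpa using one_mem_wF e _
  | succ n ih =>
    rw [pow_succ, Nat.succ_mul]
    exact wF_mul e ih ha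

end Filt

theorem exists_filt {k A : Type} [Field k] [Ring A] [Bialgebra k A] (x y z : A)
    (hgen : Algebra.adjoin k {x, y, z} = ⊤)
    (hx : Coalgebra.comul (R := k) x = x ⊗ₜ[k] (1 : A) + (1 : A) ⊗ₜ[k] x)
    (hy : Coalgebra.comul (R := k) y = y ⊗ₜ[k] (1 : A) + (1 : A) ⊗ₜ[k] y)
    (hz : Coalgebra.comul (R := k) z = z ⊗ₜ[k] (1 : A) + (1 : A) ⊗ₜ[k] z +
      x ⊗ₜ[k] (y ^ 2) + y ⊗ₜ[k] (y ^ 4)) :
    ∃ F : ℕ → Submodule k A, F 0 ≤ Submodule.span k {(1 : A)} ∧ Monotone F ∧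
      (∀ a : A, ∃ n, a ∈ F n) ∧
      (∀ n, ∀ a ∈ F n, Coalgebra.comul (R := k) a ∈
        ⨆ i : Fin (n + 1), LinearMap.range
          (TensorProduct.map (F (i : ℕ)).subtype (F (n - (i : ℕ))).subtype)) := by
  set e : Fin 3 → A := ![x, y, z] with he
  have ex : x ∈ wF k e 1 := e_mem_wF e 0
  have ey : y ∈ wF k e 1 := e_mem_wF e 1
  have ez : z ∈ wF k e 5 := e_mem_wF e 2
  have e1 : (1 : A) ∈ wF k e 0 := one_mem_wF e 0
  have ey2 : y ^ 2 ∈ wF k e 2 := wF_pow e ey 2
  have ey4 : y ^ 4 ∈ wF k e 4 := wF_pow e ey 4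
  have hgene : ∀ i : Fin 3, Coalgebra.comul (R := k) (e i) ∈ wT k e ((![1, 1, 5] : Fin 3 → ℕ) i) := by
    intro i
    fin_cases i
    · show Coalgebra.comul (R := k) x ∈ wT k e 1
      rw [hx]
      exact add_mem (tmul_mem_wT e (by norm_num) ex e1) (tmul_mem_wT e (by norm_num) e1 ex)
    · show Coalgebra.comul (R := k) y ∈ wT k e 1
      rw [hy]
      exact add_mem (tmul_mem_wT e (by norm_num) ey e1) (tmul_mem_wT e (by norm_num) e1 ey)
    · show Coalgebra.comul (R := k) z ∈ wT k e 5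
      rw [hz]
      exact add_mem (add_mem (add_mem (tmul_mem_wT e (by norm_num) ez e1)
        (tmul_mem_wT e (by norm_num) e1 ez)) (tmul_mem_wT e (by norm_num) ex ey2))
        (tmul_mem_wT e (by norm_num) ey ey4)
  have hlist : ∀ l : List (Fin 3), Coalgebra.comul (R := k) ((l.map e).prod) ∈
      wT k e ((l.map (![1, 1, 5] : Fin 3 → ℕ)).sum) := by
    intro l
    induction l with
    | nil =>
      simp only [List.map_nil, List.prod_nil, Bialgebra.comul_one, List.sum_nil]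
      exact tmul_mem_wT e (i := 0) (j := 0) (by norm_num) e1 e1
    | cons i l ih =>
      simp only [List.map_cons, List.prod_cons, Bialgebra.comul_mul, List.sum_cons]
      exact wT_mul e (hgene i) ih
  refine ⟨wF k e, ?_, wF_mono e, ?_, ?_⟩
  · rw [wF, Submodule.span_le]
    rintro a ⟨l, hl, rfl⟩
    cases l with
    | nil => simp
    | cons i l =>
      exfalso
      rw [List.map_cons, List.sum_cons] at hl
      fin_cases i <;> simp at hl
  · let S : Subalgebra k A :=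
      { carrier := {a | ∃ n, a ∈ wF k e n}
        mul_mem' := by
          rintro a b ⟨m, hm⟩ ⟨n, hn⟩
          exact ⟨m + n, wF_mul e hm hn⟩
        one_mem' := ⟨0, one_mem_wF e 0⟩
        add_mem' := by
          rintro a b ⟨m, hm⟩ ⟨n, hn⟩
          exact ⟨max m n, add_mem (wF_mono e (le_max_left _ _) hm) (wF_mono e (le_max_right _ _) hn)⟩
        zero_mem' := ⟨0, zero_mem _⟩
        algebraMap_mem' := by
          intro r
          refine ⟨0, ?_⟩
          rw [Algebra.algebraMap_eq_smul_one]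
          exact Submodule.smul_mem _ _ (one_mem_wF e 0) }
    have hS : Algebra.adjoin k {x, y, z} ≤ S := by
      apply Algebra.adjoin_le
      rintro a (rfl | rfl | rfl)
      · exact ⟨1, ex⟩
      · exact ⟨1, ey⟩
      · exact ⟨5, ez⟩
    intro a
    have ha : a ∈ Algebra.adjoin k {x, y, z} := by rw [hgen]; trivial
    exact hS ha
  · intro n a ha
    have h1 : Coalgebra.comul (R := k) a ∈ wT k e n := by
      have : wF k e n ≤ (wT k e n).comap (Coalgebra.comul (R := k) (A := A)) := by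
        rw [wF, Submodule.span_le]
        rintro a ⟨l, hl, rfl⟩
        exact wT_mono e hl (hlist l)
      exact this ha
    have h2 : wT k e n ≤ ⨆ i : Fin (n + 1), LinearMap.range
          (TensorProduct.map (wF k e (i : ℕ)).subtype (wF k e (n - (i : ℕ))).subtype) := by
      rw [wT, Submodule.span_le]
      rintro t ⟨i, j, hij, a, ha, b, hb, rfl⟩
      refine Submodule.mem_iSup_of_mem (⟨i, by omega⟩ : Fin (n + 1)) ?_
      refine ⟨(⟨a, ha⟩ : wF k e i) ⊗ₜ[k] (⟨b, wF_mono e (by omega) hb⟩ : wF k e (n - i)), ?_⟩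
      rw [TensorProduct.map_tmul]
      rfl
    exact h2 h1

end Pool.Agent.Helper815.GK2
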