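import Pool.Agent.Helper815.GK2.Defs

set_option autoImplicit false

/-!
Characteristic 2.  `K = k[x,y]`, `D` the derivation with `D x = y^8 + y^4`, `D y = x^2 + y^2`,
`g = y^10 + y^6`.  `H` is the algebra `K ⊕ z K` with `a z = z a + D a` for `a` in `K` and
`z^2 = g`, realised inside the 2 x 2 matrices over `K`
(`a + z b` is the matrix `[[a, D a + g b], [b, a + D b]]`).
-/

namespace Pool.Agent.Helper815.GK2
open MvPolynomial TensorProduct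


theorem gk_asymp (u : ℕ → ℕ) (h1 : ∀ n, u n ≤ 2 * (10 * n + 1) ^ 2)
    (h2 : ∀ n, (n / 2 + 1) ^ 2 ≤ u n) :
    (∀ ε : ℝ, 0 < ε → ∀ᶠ n : ℕ in Filter.atTop, (u n : ℝ) ≤ (n : ℝ) ^ ((2 : ℝ) + ε)) ∧
    (∀ ε : ℝ, 0 < ε → ∃ᶠ n : ℕ in Filter.atTop, (n : ℝ) ^ ((2 : ℝ) - ε) ≤ (u n : ℝ)) := by
  constructor
  · intro ε hε
    have ht : Filter.Tendsto (fun n : ℕ => (n : ℝ) ^ ε) Filter.atTop Filter.atTop :=
      (tendsto_rpow_atTop hε).comp tendsto_natCast_atTop_atTop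
    filter_upwards [ht.eventually_ge_atTop 242, Filter.eventually_ge_atTop 1] with n hn hn1
    have hn0 : (0 : ℝ) < n := by exact_mod_cast hn1
    have hn1' : (1 : ℝ) ≤ n := by exact_mod_cast hn1
    rw [Real.rpow_add hn0, Real.rpow_two]
    have h := h1 n
    have h' : (u n : ℝ) ≤ 2 * (10 * (n : ℝ) + 1) ^ 2 := by exact_mod_cast h
    calc (u n : ℝ) ≤ 2 * (10 * (n : ℝ) + 1) ^ 2 := h'
      _ ≤ (n : ℝ) ^ 2 * 242 := by nlinarith
      _ ≤ (n : ℝ) ^ 2 * (n : ℝ) ^ ε := by gcongr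
  · intro ε hε
    apply Filter.Eventually.frequently
    have ht : Filter.Tendsto (fun n : ℕ => (n : ℝ) ^ ε) Filter.atTop Filter.atTop :=
      (tendsto_rpow_atTop hε).comp tendsto_natCast_atTop_atTop
    filter_upwards [ht.eventually_ge_atTop 4, Filter.eventually_ge_atTop 1] with n hn hn1
    have hn0 : (0 : ℝ) < n := by exact_mod_cast hn1
    have hpos : (0 : ℝ) < (n : ℝ) ^ ε := Real.rpow_pos_of_pos hn0 _
    rw [Real.rpow_sub hn0, Real.rpow_two]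
    have h := h2 n
    have h' : ((n / 2 + 1 : ℕ) : ℝ) ^ 2 ≤ (u n : ℝ) := by exact_mod_cast h
    have h3 : (n : ℝ) ≤ 2 * ((n / 2 + 1 : ℕ) : ℝ) := by
      have : n ≤ 2 * (n / 2 + 1) := by omega
      exact_mod_cast this
    refine le_trans ?_ h'
    rw [div_le_iff₀ hpos]
    have h4 : (n : ℝ) ^ 2 ≤ 4 * ((n / 2 + 1 : ℕ) : ℝ) ^ 2 := by nlinarith
    calc (n : ℝ) ^ 2 ≤ 4 * ((n / 2 + 1 : ℕ) : ℝ) ^ 2 := h4
      _ = ((n / 2 + 1 : ℕ) : ℝ) ^ 2 * 4 := by ring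
      _ ≤ ((n / 2 + 1 : ℕ) : ℝ) ^ 2 * (n : ℝ) ^ ε := by gcongr

end Pool.Agent.Helper815.GK2
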