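import Pool.Agent.Helper815.GK2.Defs

set_option autoImplicit false

/-!
Characteristic 2.  `K = k[x,y]`, `D` the derivation with `D x = y^8 + y^4`, `D y = x^2 + y^2`,
`g = y^10 + y^6`.  `H` is the algebra `K ⊕ z K` with `a z = z a + D a` for `a` in `K` and
`z^2 = g`, realised inside the 2 x 2 matrices over `K`
(`a + z b` is the matrix `[[a, D a + g b], [b, a + D b]]`).
-/

namespace Pool.Agent.Helper815.GK2
open MvPolynomial TensorProduct


theorem gk_lower (k : Type) [Field k] [CharP k 2] (n : ℕ) :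
    (n / 2 + 1) ^ 2 ≤
      Module.finrank k ↥((Submodule.span k ({1, x k, y k, z k} : Set (H k))) ^ n) := by
  classical
  obtain ⟨m, hm⟩ : ∃ m, m = n / 2 := ⟨_, rfl⟩
  rw [← hm]
  obtain ⟨V, hV⟩ : ∃ V : Submodule k (H k),
    V = Submodule.span k ({1, x k, y k, z k} : Set (H k)) := ⟨_, rfl⟩
  rw [← hV]
  have hfg : V.FG := by
    rw [hV]
    exact Submodule.fg_span (Set.toFinite _)
  have hfin : Module.Finite k ↥(V ^ n) := Module.Finite.iff_fg.2 (hfg.pow n)
  have h1V : (1 : H k) ∈ V := by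
    rw [hV]; exact Submodule.subset_span (by simp)
  have hxV : x k ∈ V := by
    rw [hV]; exact Submodule.subset_span (by simp)
  have hyV : y k ∈ V := by
    rw [hV]; exact Submodule.subset_span (by simp)
  have hone : (1 : Submodule k (H k)) ≤ V := by
    rw [Submodule.one_eq_span, Submodule.span_le]
    rintro _ rfl
    exact h1V
  have hle : ∀ a b : ℕ, a ≤ b → V ^ a ≤ V ^ b := fun a b hab => pow_le_pow_right' hone hab
  have hmem : ∀ p : Fin (m + 1) × Fin (m + 1),
      (io (X 0 ^ (p.1 : ℕ) * X 1 ^ (p.2 : ℕ)) : H k) ∈ V ^ n := by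
    rintro ⟨i, j⟩
    have h1 : (io (X 0 ^ (i : ℕ) * X 1 ^ (j : ℕ)) : H k) = x k ^ (i : ℕ) * y k ^ (j : ℕ) := by
      rw [map_mul, map_pow, map_pow]; rfl
    rw [h1]
    have h2 : x k ^ (i : ℕ) * y k ^ (j : ℕ) ∈ V ^ ((i : ℕ) + (j : ℕ)) := by
      rw [pow_add]
      exact Submodule.mul_mem_mul (Submodule.pow_mem_pow V hxV _) (Submodule.pow_mem_pow V hyV _)
    refine hle _ _ ?_ h2
    have hi := i.2
    have hj := j.2
    omega
  let fl : H k →ₗ[k] K k := { toFun := fa, map_add' := fa_add, map_smul' := fa_smul }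
  let v : Fin (m + 1) × Fin (m + 1) → ↥(V ^ n) := fun p => ⟨_, hmem p⟩
  have hli : LinearIndependent k v := by
    refine LinearIndependent.of_comp (fl.comp (V ^ n).subtype) ?_
    have h3 : (⇑(fl.comp (V ^ n).subtype) ∘ v) =
        (MvPolynomial.basisMonomials (Fin 2) k) ∘
          (fun p : Fin (m + 1) × Fin (m + 1) =>
            (Finsupp.single (0 : Fin 2) (p.1 : ℕ) + Finsupp.single (1 : Fin 2) (p.2 : ℕ))) := by
      funext p
      show fa (io (X 0 ^ (p.1 : ℕ) * X 1 ^ (p.2 : ℕ)) : H k) = _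
      rw [fa_io]
      simp only [Function.comp_apply, MvPolynomial.coe_basisMonomials]
      rw [MvPolynomial.X_pow_eq_monomial, MvPolynomial.X_pow_eq_monomial,
        MvPolynomial.monomial_mul, one_mul]
    rw [h3]
    refine (MvPolynomial.basisMonomials (Fin 2) k).linearIndependent.comp _ ?_
    intro p q hpq
    have h0 := DFunLike.congr_fun hpq 0
    have h1 := DFunLike.congr_fun hpq 1
    simp at h0 h1
    ext
    · exact h0
    · exact h1
  have hcard := hli.fintype_card_le_finrank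
  rw [Fintype.card_prod, Fintype.card_fin] at hcard
  rw [sq]
  exact hcard
end Pool.Agent.Helper815.GK2
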