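import Pool.Agent.Helper815.GK2.Defs

set_option autoImplicit false

/-!
Characteristic 2.  `K = k[x,y]`, `D` the derivation with `D x = y^8 + y^4`, `D y = x^2 + y^2`,
`g = y^10 + y^6`.  `H` is the algebra `K ⊕ z K` with `a z = z a + D a` for `a` in `K` and
`z^2 = g`, realised inside the 2 x 2 matrices over `K`
(`a + z b` is the matrix `[[a, D a + g b], [b, a + D b]]`).
-/

namespace Pool.Agent.Helper815.GK2
open MvPolynomial TensorProduct


theorem gk_upper_sum (s : Fin 2 →₀ ℕ) : (s.sum fun _ => id) = s 0 + s 1 := by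
  rw [Finsupp.sum_fintype _ _ (fun _ => rfl), Fin.sum_univ_two]
  rfl

theorem gk_upper_pol {k : Type} [Field k] (i : Fin 2) :
    (![X 1 ^ 8 + X 1 ^ 4, X 0 ^ 2 + X 1 ^ 2] i : K k).totalDegree ≤ 8 := by
  fin_cases i
  · show (X 1 ^ 8 + X 1 ^ 4 : K k).totalDegree ≤ 8
    refine (totalDegree_add _ _).trans ?_
    rw [totalDegree_X_pow, totalDegree_X_pow]
    norm_num
  · show (X 0 ^ 2 + X 1 ^ 2 : K k).totalDegree ≤ 8
    refine (totalDegree_add _ _).trans ?_
    rw [totalDegree_X_pow, totalDegree_X_pow]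
    norm_num

theorem gk_upper_D_mono {k : Type} [Field k] (s : Fin 2 →₀ ℕ) (r : k) :
    (D k (monomial s r)).totalDegree ≤ s 0 + s 1 + 7 := by
  unfold D
  rw [mkDerivation_monomial]
  refine (totalDegree_smul_le _ _).trans ?_
  unfold Finsupp.sum
  refine (totalDegree_finsetSum _ _).trans (Finset.sup_le fun i hi => ?_)
  simp only [smul_eq_mul]
  refine (totalDegree_mul _ _).trans ?_
  have h1 := totalDegree_monomial_le (s - Finsupp.single i 1) ((s i : ℕ) : k)
  rw [gk_upper_sum] at h1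
  have h2 := gk_upper_pol (k := k) i
  have hi' : s i ≠ 0 := Finsupp.mem_support_iff.1 hi
  have h3 : (s - Finsupp.single i 1 : Fin 2 →₀ ℕ) 0 + (s - Finsupp.single i 1 : Fin 2 →₀ ℕ) 1 + 1
      = s 0 + s 1 := by
    rw [Finsupp.tsub_apply, Finsupp.tsub_apply]
    fin_cases i
    · simp at hi' ⊢
      omega
    · simp at hi' ⊢
      omega
  omega

theorem gk_upper_D {k : Type} [Field k] (f : K k) : (D k f).totalDegree ≤ f.totalDegree + 7 := by
  have h1 : D k f = ∑ v ∈ f.support, D k (monomial v (coeff v f)) := by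
    conv_lhs => rw [f.as_sum]
    rw [map_sum]
  rw [h1]
  refine (totalDegree_finsetSum _ _).trans (Finset.sup_le fun v hv => ?_)
  have h2 := gk_upper_D_mono v (coeff v f)
  have h3 := le_totalDegree hv
  have h4 : (v.sum fun _ e => e) = v 0 + v 1 := gk_upper_sum v
  omega

theorem gk_upper_g {k : Type} [Field k] : (g k).totalDegree ≤ 10 := by
  unfold g
  refine (totalDegree_add _ _).trans ?_
  rw [totalDegree_X_pow, totalDegree_X_pow]
  norm_num

/-- the elements of degree at most `m` -/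
def gk_upper_G (k : Type) [Field k] [CharP k 2] (m l : ℕ) : Submodule k (H k) where
  carrier := {M | (fa M).totalDegree ≤ m ∧ (fb M).totalDegree ≤ l}
  add_mem' := by
    rintro M N ⟨h1, h2⟩ ⟨h3, h4⟩
    exact ⟨(totalDegree_add _ _).trans (max_le h1 h3), (totalDegree_add _ _).trans (max_le h2 h4)⟩
  zero_mem' := by
    constructor
    · rw [fa_zero, totalDegree_zero]
      exact Nat.zero_le _
    · rw [fb_zero, totalDegree_zero]
      exact Nat.zero_le _
  smul_mem' := by
    rintro c M ⟨h1, h2⟩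
    exact ⟨(totalDegree_smul_le _ _).trans h1, (totalDegree_smul_le _ _).trans h2⟩

theorem gk_upper_mem {k : Type} [Field k] [CharP k 2] {m l : ℕ} {M : H k} :
    M ∈ gk_upper_G k m l ↔ (fa M).totalDegree ≤ m ∧ (fb M).totalDegree ≤ l := Iff.rfl

theorem gk_upper_V {k : Type} [Field k] [CharP k 2] :
    Submodule.span k ({1, x k, y k, z k} : Set (H k)) ≤ gk_upper_G k 1 0 := by
  rw [Submodule.span_le]
  rintro M hM
  simp only [Set.mem_insert_iff, Set.mem_singleton_iff] at hM
  rcases hM with rfl | rfl | rfl | rfl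
  · show _ ∧ _
    rw [fa_one, fb_one, totalDegree_one, totalDegree_zero]
    exact ⟨Nat.zero_le _, le_rfl⟩
  · show _ ∧ _
    unfold x
    rw [fa_io, fb_io, totalDegree_X, totalDegree_zero]
    exact ⟨le_rfl, le_rfl⟩
  · show _ ∧ _
    unfold y
    rw [fa_io, fb_io, totalDegree_X, totalDegree_zero]
    exact ⟨le_rfl, le_rfl⟩
  · show _ ∧ _
    rw [fa_z, fb_z, totalDegree_one, totalDegree_zero]
    exact ⟨Nat.zero_le _, le_rfl⟩

theorem gk_upper_mul {k : Type} [Field k] [CharP k 2] (m : ℕ) :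
    gk_upper_G k m m * gk_upper_G k 1 0 ≤ gk_upper_G k (m + 10) (m + 10) := by
  rw [Submodule.mul_le]
  rintro M ⟨h1, h2⟩ N ⟨h3, h4⟩
  have hDa := gk_upper_D (fa M)
  have hDb := gk_upper_D (fb M)
  have hg := gk_upper_g (k := k)
  have hga := totalDegree_mul (g k) (fb M)
  have h5 := totalDegree_mul (fa M) (fa N)
  have h6 := totalDegree_mul (D k (fa M) + g k * fb M) (fb N)
  have h7 := totalDegree_add (D k (fa M)) (g k * fb M)
  have h8 := totalDegree_mul (fb M) (fa N)
  have h9 := totalDegree_mul (fa M + D k (fb M)) (fb N)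
  have h10 := totalDegree_add (fa M) (D k (fb M))
  refine gk_upper_mem.2 ⟨?_, ?_⟩
  · rw [fa_mul]
    have h11 := totalDegree_add (fa M * fa N) ((D k (fa M) + g k * fb M) * fb N)
    omega
  · rw [fb_mul]
    have h11 := totalDegree_add (fb M * fa N) ((fa M + D k (fb M)) * fb N)
    omega

theorem gk_upper_pow {k : Type} [Field k] [CharP k 2] (n : ℕ) :
    (Submodule.span k ({1, x k, y k, z k} : Set (H k))) ^ n ≤
      gk_upper_G k (10 * n) (10 * n) := by
  induction n with
  | zero =>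
    rw [pow_zero, Submodule.one_le]
    refine gk_upper_mem.2 ?_
    rw [fa_one, fb_one, totalDegree_one, totalDegree_zero]
    exact ⟨Nat.zero_le _, Nat.zero_le _⟩
  | succ n ih =>
    rw [pow_succ]
    exact (mul_le_mul' ih gk_upper_V).trans (gk_upper_mul (10 * n))

noncomputable def gk_upper_psi (k : Type) [Field k] (m : ℕ) :
    K k →ₗ[k] (Fin (m + 1) × Fin (m + 1) → k) :=
  LinearMap.pi fun ij => MvPolynomial.lcoeff k
    (Finsupp.single 0 (ij.1 : ℕ) + Finsupp.single 1 (ij.2 : ℕ))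

theorem gk_upper_psi_inj {k : Type} [Field k] {m : ℕ} {f : K k} (hf : f.totalDegree ≤ m)
    (h : gk_upper_psi k m f = 0) : f = 0 := by
  ext v
  rw [coeff_zero]
  by_contra hv
  have h1 : v ∈ f.support := mem_support_iff.2 hv
  have h2 := le_totalDegree h1
  have h4 : (v.sum fun _ e => e) = v 0 + v 1 := gk_upper_sum v
  have h5 : v 0 < m + 1 := by omega
  have h6 : v 1 < m + 1 := by omega
  have h7 := congrFun h (⟨v 0, h5⟩, ⟨v 1, h6⟩)
  have h8 : (Finsupp.single (0 : Fin 2) (v 0) + Finsupp.single 1 (v 1)) = v := by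
    ext i
    fin_cases i <;> simp
  have h9 : coeff (Finsupp.single (0 : Fin 2) (v 0) + Finsupp.single 1 (v 1)) f = 0 := h7
  rw [h8] at h9
  exact hv h9

noncomputable def gk_upper_fa (k : Type) [Field k] [CharP k 2] : H k →ₗ[k] K k where
  toFun := fa
  map_add' := fa_add
  map_smul' := fa_smul

noncomputable def gk_upper_fb (k : Type) [Field k] [CharP k 2] : H k →ₗ[k] K k where
  toFun := fb
  map_add' := fb_add
  map_smul' := fb_smul

theorem gk_upper (k : Type) [Field k] [CharP k 2] (n : ℕ) :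
    Module.finrank k ↥((Submodule.span k ({1, x k, y k, z k} : Set (H k))) ^ n) ≤
      2 * (10 * n + 1) ^ 2 := by
  obtain ⟨P, hP⟩ : ∃ P : Submodule k (H k),
      P = (Submodule.span k ({1, x k, y k, z k} : Set (H k))) ^ n := ⟨_, rfl⟩
  have hPG : P ≤ gk_upper_G k (10 * n) (10 * n) := by
    rw [hP]
    exact gk_upper_pow n
  rw [← hP]
  obtain ⟨Φ, hΦ⟩ : ∃ Φ : H k →ₗ[k] ((Fin (10 * n + 1) × Fin (10 * n + 1) → k) ×
      (Fin (10 * n + 1) × Fin (10 * n + 1) → k)), ∀ M, Φ M =
        (gk_upper_psi k (10 * n) (fa M), gk_upper_psi k (10 * n) (fb M)) :=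
    ⟨(gk_upper_psi k (10 * n) ∘ₗ gk_upper_fa k).prod (gk_upper_psi k (10 * n) ∘ₗ gk_upper_fb k),
      fun M => rfl⟩
  have hinj : Function.Injective (Φ.domRestrict P) := by
    rw [injective_iff_map_eq_zero]
    rintro ⟨M, hM⟩ hM0
    have h1 : Φ M = 0 := hM0
    rw [hΦ] at h1
    obtain ⟨h2, h3⟩ := gk_upper_mem.1 (hPG hM)
    have h4 := gk_upper_psi_inj h2 (congrArg Prod.fst h1)
    have h5 := gk_upper_psi_inj h3 (congrArg Prod.snd h1)
    exact Subtype.ext (ext_ab h4 h5)
  have h1 := LinearMap.finrank_le_finrank_of_injective hinj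
  refine h1.trans ?_
  rw [Module.finrank_prod, Module.finrank_fintype_fun_eq_card, Fintype.card_prod, Fintype.card_fin]
  nlinarith

end Pool.Agent.Helper815.GK2
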