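import Pool.Agent.Helper815.GK2.Defs

set_option autoImplicit false

/-!
Characteristic 2.  `K = k[x,y]`, `D` the derivation with `D x = y^8 + y^4`, `D y = x^2 + y^2`,
`g = y^10 + y^6`.  `H` is the algebra `K ⊕ z K` with `a z = z a + D a` for `a` in `K` and
`z^2 = g`, realised inside the 2 x 2 matrices over `K`
(`a + z b` is the matrix `[[a, D a + g b], [b, a + D b]]`).
-/

namespace Pool.Agent.Helper815.GK2
open MvPolynomial TensorProduct


theorem not_two_gen (k : Type) [Field k] [CharP k 2] (u v : H k) :
    Algebra.adjoin k ({u, v} : Set (H k)) ≠ ⊤ := by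
  classical
  intro htop
  let e0 : K k →ₐ[k] k := MvPolynomial.aeval (fun _ : Fin 2 => (0 : k))
  have e0X : ∀ i, e0 (X i) = 0 := fun i => by simp [e0]
  have hDX : ∀ i, e0 (D k (X i)) = 0 := by
    intro i
    fin_cases i
    · show e0 (D k (X 0)) = 0
      rw [D_x]; simp [e0X]
    · show e0 (D k (X 1)) = 0
      rw [D_y]; simp [e0X]
  have hpDX : ∀ i j, e0 (pderiv j (D k (X i))) = 0 := by
    intro i j
    fin_cases i
    · show e0 (pderiv j (D k (X 0))) = 0
      rw [D_x, map_add, Derivation.leibniz_pow, Derivation.leibniz_pow]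
      simp [e0X]
    · show e0 (pderiv j (D k (X 1))) = 0
      rw [D_y, map_add, Derivation.leibniz_pow, Derivation.leibniz_pow]
      simp [e0X]
  have hD : ∀ f : K k, e0 (D k f) = 0 := by
    intro f
    induction f using MvPolynomial.induction_on with
    | C r => simp
    | add p q hp hq => rw [map_add, map_add, hp, hq, add_zero]
    | mul_X p i hp =>
      rw [Derivation.leibniz, map_add, smul_eq_mul, smul_eq_mul, map_mul, map_mul, hDX, hp]
      simp
  have hpD : ∀ (f : K k) (j : Fin 2), e0 (pderiv j (D k f)) = 0 := by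
    intro f j
    induction f using MvPolynomial.induction_on with
    | C r => simp
    | add p q hp hq => rw [map_add, map_add, map_add, hp, hq, add_zero]
    | mul_X p i hp =>
      rw [Derivation.leibniz, map_add, smul_eq_mul, smul_eq_mul, Derivation.leibniz,
        Derivation.leibniz, map_add, map_add, map_add]
      simp only [smul_eq_mul, map_mul]
      rw [hpDX, hDX, hp, hD, e0X]
      ring
  have hg0 : e0 (g k) = 0 := by simp [g, e0X]
  have hg1 : ∀ j, e0 (pderiv j (g k)) = 0 := by
    intro j
    rw [g, map_add, Derivation.leibniz_pow, Derivation.leibniz_pow]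
    simp [e0X]
  let P : H k → Fin 3 → k := fun M =>
    ![e0 (pderiv 0 (fa M)), e0 (pderiv 1 (fa M)), e0 (fb M)]
  have hpj : ∀ (j : Fin 2) (M N : H k), e0 (pderiv j (fa (M * N))) =
      e0 (fa M) * e0 (pderiv j (fa N)) + e0 (fa N) * e0 (pderiv j (fa M)) := by
    intro j M N
    rw [fa_mul, map_add, Derivation.leibniz, Derivation.leibniz]
    simp only [smul_eq_mul, map_add, map_mul, Derivation.leibniz]
    rw [hpD, hg0, hg1, hD]
    ring
  have hpb : ∀ (M N : H k), e0 (fb (M * N)) =
      e0 (fa M) * e0 (fb N) + e0 (fa N) * e0 (fb M) := by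
    intro M N
    rw [fb_mul]
    simp only [map_add, map_mul]
    rw [hD]
    ring
  have hPmul : ∀ M N : H k, P (M * N) = e0 (fa M) • P N + e0 (fa N) • P M := by
    intro M N
    ext i
    fin_cases i
    · simpa [P] using hpj 0 M N
    · simpa [P] using hpj 1 M N
    · simpa [P] using hpb M N
  have hPadd : ∀ M N : H k, P (M + N) = P M + P N := by
    intro M N
    ext i
    fin_cases i <;> simp [P]
  have hPalg : ∀ r : k, P (algebraMap k (H k) r) = 0 := by
    intro r
    rw [Algebra.algebraMap_eq_smul_one]
    ext i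
    fin_cases i <;> simp [P]
  have hmem : ∀ M : H k, P M ∈ Submodule.span k (({P u, P v} : Finset (Fin 3 → k)) : Set (Fin 3 → k)) := by
    intro M
    have hM : M ∈ Algebra.adjoin k ({u, v} : Set (H k)) := by rw [htop]; exact Algebra.mem_top
    induction hM using Algebra.adjoin_induction with
    | mem x hx =>
      apply Submodule.subset_span
      rcases hx with rfl | rfl
      · simp
      · simp
    | algebraMap r => rw [hPalg]; exact Submodule.zero_mem _
    | add x y _ _ hx hy => rw [hPadd]; exact Submodule.add_mem _ hx hy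
    | mul x y _ _ hx hy =>
      rw [hPmul]
      exact Submodule.add_mem _ (Submodule.smul_mem _ _ hy) (Submodule.smul_mem _ _ hx)
  have hx : P (x k) = ![1, 0, 0] := by
    ext i
    fin_cases i <;> simp [P, x, pderiv_X]
  have hy : P (y k) = ![0, 1, 0] := by
    ext i
    fin_cases i <;> simp [P, y, pderiv_X]
  have hz : P (z k) = ![0, 0, 1] := by
    ext i
    fin_cases i <;> simp [P]
  have hspan : Submodule.span k (({P u, P v} : Finset (Fin 3 → k)) : Set (Fin 3 → k)) = ⊤ := by
    rw [Submodule.eq_top_iff']
    intro w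
    have hw : w = w 0 • P (x k) + w 1 • P (y k) + w 2 • P (z k) := by
      rw [hx, hy, hz]
      ext i
      fin_cases i <;> simp
    rw [hw]
    exact Submodule.add_mem _ (Submodule.add_mem _ (Submodule.smul_mem _ _ (hmem _))
      (Submodule.smul_mem _ _ (hmem _))) (Submodule.smul_mem _ _ (hmem _))
  have h1 := finrank_span_finset_le_card (R := k) ({P u, P v} : Finset (Fin 3 → k))
  rw [Set.finrank, hspan, finrank_top, Module.finrank_fin_fun] at h1
  have h2 := Finset.card_le_two (a := P u) (b := P v)
  omega

end Pool.Agent.Helper815.GK2
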